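import Pool.Agent.K1H29.AC.Step

/-!
# The barrier at one inactive scale
-/

open Set MeasureTheory Filter Topology ComplexConjugate

namespace Pool.Agent.K1H29.AC

open Pool.Agent.H356R3.NS (K C3 Sym Bf bt dt nk)
open Pool.Agent.K1H29.SH

/-- the threshold of the energy above the frequency `2^n` -/
noncomputable def Rs (ν : ℝ) (n : ℕ) : ℝ := ν ^ 2 / (4 * 10 ^ 9 * 2 ^ n)

lemma Rs_pos {ν : ℝ} (hν : 0 < ν) (n : ℕ) : 0 < Rs ν n := by unfold Rs; positivity

lemma rh_le_pow (n : ℕ) (k : K) : |rh 3 (2 ^ n) (nn k)| ≤ 1 * (1 + nn k) ^ 6 := by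
  rw [abs_of_nonneg (rh_nonneg _ _ _), one_mul]
  unfold rh th
  have h0 := nn_nonneg k
  have h1 : max 1 (nn k / 2 ^ n) ≤ 1 + nn k := by
    apply max_le
    · linarith
    · have : nn k / 2 ^ n ≤ nn k := div_le_self h0 (one_le_pow₀ (by norm_num))
      linarith
  have h2 : (max 1 (nn k / 2 ^ n) ^ 3) ^ 2 ≤ (1 + nn k) ^ 6 := by
    rw [← pow_mul]
    exact pow_le_pow_left₀ (by positivity) h1 6
  linarith

/-- the bound of the flux -/
lemma flux_tr {B : Finset K} (hB : ∀ k ∈ B, -k ∈ B) {c : K → C3} (hsym : Sym c)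
    (hdiv : ∀ k, dt k (c k) = 0) (n : ℕ) :
    |∑ k ∈ B, rh 3 (2 ^ n) (nn k) * (2 * (ipc (Bf (tr B c) (tr B c) k) (tr B c k)).re)|
      ≤ 10944 * (∑ k ∈ B, nn k * ‖c k‖) * (Fe B (n - 1) c + We 3 B n c) := by
  have h1 := flux_rh (u := tr B c) hB (fun k hk => tr_not hk) (tr_sym hB hsym) (tr_div hdiv) 3 n
  rw [Fe_tr, We_tr] at h1
  have h2 : ∑ k ∈ B, nn k * ‖tr B c k‖ = ∑ k ∈ B, nn k * ‖c k‖ :=
    Finset.sum_congr rfl fun k hk => by rw [tr_mem hk]
  rw [h2] at h1
  refine h1.trans (le_of_eq ?_)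
  push_cast
  ring

lemma high_sum' (B : Finset K) (n : ℕ) (u : K → C3) :
    ∑ k ∈ B.filter (fun k => 2 ^ (n + 1) ≤ nn k), nn k * ‖u k‖
      ≤ 552 * (lam ^ n * √(Fe B n u + We 3 B (n + 1) u)) := by
  have hlp := lam_pos
  refine (high_sum B n u).trans ?_
  have h1 : Fe B n u + We 3 B n u ≤ 64 * (Fe B n u + We 3 B (n + 1) u) := by
    unfold Fe We
    rw [← Finset.sum_add_distrib, ← Finset.sum_add_distrib, Finset.mul_sum]
    refine Finset.sum_le_sum fun k _ => ?_
    have he := en_nonneg (u k)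
    have hW := W_nonneg (2 ^ n) (nn k)
    have hr := rh_nonneg 3 (2 ^ (n + 1)) (nn k)
    rw [← add_mul, ← add_mul, ← mul_assoc]
    apply mul_le_mul_of_nonneg_right _ he
    rcases le_or_gt (nn k) (2 ^ n) with h | h
    · rw [rh_eq_zero (by positivity) h]
      linarith
    · rw [W_eq_one (by positivity) h.le]
      have e1 : ∀ N, 1 + rh 3 N (nn k) = th 3 N (nn k) ^ 2 := fun N => by unfold rh; ring
      rw [e1, e1]
      unfold th
      have e2 : max 1 (nn k / 2 ^ n) ≤ 2 * max 1 (nn k / 2 ^ (n + 1)) := by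
        apply max_le
        · have := le_max_left 1 (nn k / 2 ^ (n + 1))
          linarith
        · have := le_max_right 1 (nn k / 2 ^ (n + 1))
          have e3 : nn k / 2 ^ n = 2 * (nn k / 2 ^ (n + 1)) := by rw [pow_succ]; field_simp
          rw [e3]
          linarith
      have e4 : (max 1 (nn k / 2 ^ n) ^ 3) ^ 2 ≤ (2 * max 1 (nn k / 2 ^ (n + 1))) ^ 6 := by
        rw [← pow_mul]
        exact pow_le_pow_left₀ (by positivity) e2 6
      refine e4.trans (le_of_eq ?_)
      ring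
  have h2 : √(Fe B n u + We 3 B n u) ≤ 8 * √(Fe B n u + We 3 B (n + 1) u) := by
    refine (Real.sqrt_le_sqrt h1).trans (le_of_eq ?_)
    rw [Real.sqrt_mul (by norm_num), show (64 : ℝ) = 8 ^ 2 by norm_num,
      Real.sqrt_sq (by norm_num)]
  calc 69 * (lam ^ n * √(Fe B n u + We 3 B n u))
      ≤ 69 * (lam ^ n * (8 * √(Fe B n u + We 3 B (n + 1) u))) := by gcongr
    _ = _ := by ring

section

open H459R3.NS Pool.Agent.K1H60.HS

variable {ν T : ℝ} {u : ℝ → V → V} {p : ℝ → V → ℝ}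

/-- The arithmetic of the barrier. -/
lemma bar_arith {ν a y κ e Ls : ℝ} {n : ℕ} (hν : 0 < ν) (ha : a = ν * 4 ^ (n + 1))
    (hy : Rs ν n ≤ y) (hy3 : y ≤ 3 * Rs ν n) (hκ : 8 * κ ≤ Rs ν n) (he : e = a * Rs ν n / 2)
    (hL : Ls = 6041088 * (lam ^ n * √y)) :
    -(72 * a * (y - κ)) + Ls * y + a * y + e < 0 := by
  have hR := Rs_pos hν n
  have ha0 : 0 < a := by rw [ha]; positivity
  have hy0 : 0 < y := hR.trans_le hy
  have hlp := lam_pos
  -- the main estimate
  have h1 : Ls ≤ 50 * a := by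
    have h2 : Ls ^ 2 ≤ (50 * a) ^ 2 := by
      have e1 : Ls ^ 2 = 6041088 ^ 2 * (32 ^ n * y) := by
        rw [hL, mul_pow, mul_pow, Real.sq_sqrt hy0.le, ← pow_mul, mul_comm n 2, pow_mul, lam_sq]
      have e2 : (50 * a) ^ 2 = 2500 * 16 * (ν ^ 2 * 16 ^ n) := by
        rw [ha, show (16 : ℝ) ^ n = (4 ^ n) ^ 2 by rw [← pow_mul, mul_comm, pow_mul]; norm_num,
          pow_succ]
        ring
      rw [e1, e2]
      have e3 : (32 : ℝ) ^ n * y ≤ 3 / (4 * 10 ^ 9) * (ν ^ 2 * 16 ^ n) := by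
        have e4 : (32 : ℝ) ^ n = 16 ^ n * 2 ^ n := by rw [← mul_pow]; norm_num
        calc (32 : ℝ) ^ n * y ≤ 32 ^ n * (3 * Rs ν n) := mul_le_mul_of_nonneg_left hy3 (by positivity)
          _ = _ := by
            unfold Rs
            rw [e4]
            field_simp
      have e5 : 0 < ν ^ 2 * 16 ^ n := by positivity
      nlinarith
    exact le_of_sq_le_sq h2 (by positivity)
  have h3 : Ls * y ≤ 50 * a * y := mul_le_mul_of_nonneg_right h1 hy0.le
  have h4 : 72 * a * κ ≤ 72 * a * (y / 8) := by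
    apply mul_le_mul_of_nonneg_left _ (by positivity)
    linarith
  have h5 : e ≤ a * y / 2 := by
    rw [he]
    have := mul_le_mul_of_nonneg_left hy ha0.le
    linarith
  have h6 : 0 < a * y := by positivity
  nlinarith

/-- At an inactive scale the energy of the small scales does not cross the threshold. -/
theorem barrier' (hν : 0 < ν) (h : IsSol ν T u p) {n : ℕ} {κ κ0 δ : ℝ} (hδ : 1824 * δ ≤ 1)
    (hκ : ∀ t ∈ Ico 0 T, ∀ R, Fe (bb R) n (cf (u t)) ≤ κ) (hκR : 8 * κ ≤ Rs ν n)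
    (h0 : ∀ R, We 3 (bb R) (n + 1) (cf (u 0)) ≤ κ0) (hκ0 : κ + κ0 < Rs ν n)
    (hin : ∀ t ∈ Ico 0 T, Psi (ν * 4 ^ (n + 1)) (fun s => strain (n + 1) (u s)) t ≤ δ) :
    ∀ t ∈ Ico 0 T, ∀ R, We 3 (bb R) (n + 1) (cf (u t)) ≤ 3 * Rs ν n := by
  intro t ht R
  have hκp : 0 ≤ κ := (Fe_nonneg _ _ _).trans (hκ t ht 0)
  set a : ℝ := ν * 4 ^ (n + 1) with ha
  have ha0 : 0 < a := by positivity
  set g : ℝ → ℝ := fun s => strain (n + 1) (u s) with hg
  have hgc : ContinuousOn g (Ico 0 T) := continuousOn_strain h (n + 1)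
  have hg0 : ∀ s ∈ Ico 0 T, 0 ≤ g s := fun s _ => strain_nonneg _ _
  obtain ⟨b, hb1, hb2⟩ := exists_between ht.2
  have hpi := Real.pi_pos
  have hRp := Rs_pos hν n
  set η : ℝ := a * Rs ν n / 2 with hη
  have hη0 : 0 < η := by positivity
  obtain ⟨R0, hR0⟩ := err_small h hb2 (w := fun k => rh 3 (2 ^ (n + 1)) (nn k)) (C := 1) (q := 6)
    (fun k => rh_le_pow (n + 1) k) hη0
  set R' := max R R0 with hR'
  refine (We_mono (le_max_left R R0) (n + 1) _).trans ?_
  have hsub : Ico 0 b ⊆ Ico 0 T := fun s hs => ⟨hs.1, hs.2.trans hb2⟩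
  have hsub' : Ioo 0 b ⊆ Ioo 0 T := fun s hs => ⟨hs.1, hs.2.trans hb2⟩
  set D1 : ℝ → ℝ := fun s => (-(2 * ∑ k ∈ bb R', rh 3 (2 ^ (n + 1)) (nn k) *
      ((4 * Real.pi ^ 2 * ν * Pool.Agent.H356R3.NS.sq k) * en (cf (u s) k)))
      + ∑ k ∈ bb R', rh 3 (2 ^ (n + 1)) (nn k) * fl (cf (u s)) k) with hD1
  have hder : ∀ s ∈ Ioo 0 T, HasDerivAt (fun s => We 3 (bb R') (n + 1) (cf (u s))) (D1 s) s :=
    fun s hs => der_sum h (bb R') _ hs
  have hΨd : ∀ s ∈ Ioo 0 T, HasDerivAt (Psi a g) (g s - a * Psi a g s) s :=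
    fun s hs => Psi_hasDerivAt hgc hs
  have hΨ1 : ∀ s ∈ Ico 0 T, 1824 * Psi a g s ≤ 1 := fun s hs =>
    (mul_le_mul_of_nonneg_left (hin s hs) (by norm_num)).trans hδ
  have hΨ0 : ∀ s ∈ Ico 0 T, 0 ≤ Psi a g s := fun s hs => Psi_nonneg hg0 hs
  have hexp : ∀ s ∈ Ico 0 T, 1 / 3 ≤ Real.exp (-(1824 * Psi a g s)) := fun s hs => by
    have h1 : Real.exp (-1) ≤ Real.exp (-(1824 * Psi a g s)) :=
      Real.exp_le_exp.2 (by linarith [hΨ1 s hs])
    refine le_trans ?_ h1
    rw [Real.exp_neg, one_div]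
    apply inv_anti₀ (Real.exp_pos 1)
    linarith [Real.exp_one_lt_d9]
  have hexp1 : ∀ s ∈ Ico 0 T, Real.exp (-(1824 * Psi a g s)) ≤ 1 := fun s hs => by
    rw [Real.exp_le_one_iff]
    linarith [hΨ0 s hs]
  have key := nocross' (f := fun s => (κ + We 3 (bb R') (n + 1) (cf (u s))) *
      Real.exp (-(1824 * Psi a g s))) (T := b) (R := Rs ν n)
    (D := fun s => D1 s * Real.exp (-(1824 * Psi a g s)) +
      (κ + We 3 (bb R') (n + 1) (cf (u s))) * (Real.exp (-(1824 * Psi a g s)) *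
        -(1824 * (g s - a * Psi a g s))))
    (by
      refine ContinuousOn.mul (continuousOn_const.add ((continuousOn_sum h (bb R') _).mono hsub)) ?_
      exact Real.continuous_exp.comp_continuousOn
        (continuousOn_const.mul ((Psi_continuousOn hgc).mono hsub)).neg)
    (fun s hs => ((hder s (hsub' hs)).const_add κ).mul
      (((hΨd s (hsub' hs)).const_mul 1824).fun_neg.exp))
    (by
      show (κ + We 3 (bb R') (n + 1) (cf (u 0))) * Real.exp (-(1824 * Psi a g 0)) < Rs ν n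
      rw [Psi_zero, mul_zero, neg_zero, Real.exp_zero, mul_one]
      have := h0 R'
      linarith)
    (fun s hs he => by
      have hsT := hsub' hs
      have hsI : s ∈ Ico 0 T := ⟨hsT.1.le, hsT.2⟩
      set E := Real.exp (-(1824 * Psi a g s)) with hE
      have hEpos : 0 < E := Real.exp_pos _
      set G := We 3 (bb R') (n + 1) (cf (u s)) with hG
      have hG0 : 0 ≤ G := We_nonneg _ _ _ _
      have he2 : (κ + G) * E = Rs ν n := he
      have hE3 := hexp s hsI
      have hE1 := hexp1 s hsI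
      set y := κ + G with hy
      have hy0 : 0 ≤ y := by positivity
      have hy1 : Rs ν n ≤ y := by
        rw [← he2]
        exact mul_le_of_le_one_right hy0 hE1
      have hy3 : y ≤ 3 * Rs ν n := by
        rw [← he2]
        nlinarith
      have h1 := hR0 R' (le_max_right _ _) s ⟨hs.1.le, hs.2.le⟩ hsT.2
      have h2 := flux_tr (B := bb R') bb_neg (cf_sym (u s)) (cf_div h hsI) (n + 1)
      rw [Nat.add_sub_cancel] at h2
      have h3 := low_le_strain (bb R') (n + 1) (u s)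
      have h4 := high_sum' (bb R') n (cf (u s))
      have hFn : Fe (bb R') n (cf (u s)) ≤ κ := hκ s hsI R'
      have hlp := lam_pos
      have h5 : ∑ k ∈ bb R', nn k * ‖cf (u s) k‖ ≤ g s / 6 + 552 * (lam ^ n * √y) := by
        rw [split_sum _ n]
        have h6 : strain (n + 1) (u s) / (2 * Real.pi) ≤ g s / 6 := by
          have := strain_nonneg (n + 1) (u s)
          rw [hg]
          apply div_le_div_of_nonneg_left this (by norm_num)
          linarith [Real.pi_gt_three]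
        have h7 : √(Fe (bb R') n (cf (u s)) + We 3 (bb R') (n + 1) (cf (u s))) ≤ √y :=
          Real.sqrt_le_sqrt (by rw [hy, hG]; linarith)
        have h8 : 552 * (lam ^ n * √(Fe (bb R') n (cf (u s)) + We 3 (bb R') (n + 1) (cf (u s))))
            ≤ 552 * (lam ^ n * √y) := by gcongr
        linarith
      -- the flux
      have h9 : ∑ k ∈ bb R', rh 3 (2 ^ (n + 1)) (nn k) * fl (cf (u s)) k
          ≤ (1824 * g s + 6041088 * (lam ^ n * √y)) * y + η := by
        have h6 : 10944 * (∑ k ∈ bb R', nn k * ‖cf (u s) k‖) *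
            (Fe (bb R') n (cf (u s)) + We 3 (bb R') (n + 1) (cf (u s)))
            ≤ (10944 * (g s / 6 + 552 * (lam ^ n * √y))) * y := by
          apply mul_le_mul
          · exact mul_le_mul_of_nonneg_left h5 (by norm_num)
          · have := hκ s hsI R'
            rw [hy, hG]; linarith
          · exact add_nonneg (Fe_nonneg _ _ _) (We_nonneg _ _ _ _)
          · have := hg0 s hsI
            positivity
        have h7 := (abs_le.1 h1).2
        have h8 := (abs_le.1 h2).2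
        have e : (10944 * (g s / 6 + 552 * (lam ^ n * √y))) * y
            = (1824 * g s + 6041088 * (lam ^ n * √y)) * y := by ring
        rw [e] at h6
        linarith
      -- the dissipation
      have h10 : 72 * a * G ≤ 2 * ∑ k ∈ bb R', rh 3 (2 ^ (n + 1)) (nn k) *
          ((4 * Real.pi ^ 2 * ν * Pool.Agent.H356R3.NS.sq k) * en (cf (u s) k)) := by
        rw [hG]
        unfold We
        rw [Finset.mul_sum, Finset.mul_sum]
        refine Finset.sum_le_sum fun k _ => ?_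
        rcases le_or_gt (nn k) (2 ^ (n + 1)) with h11 | h11
        · rw [rh_eq_zero (by positivity) h11]; simp
        · have h12 := sq_lower (by positivity) h11.le
          have h13 : ((2 : ℝ) ^ (n + 1)) ^ 2 = 4 ^ (n + 1) := by
            rw [← pow_mul, mul_comm, pow_mul]; norm_num
          rw [h13] at h12
          have h14 : 72 * a ≤ 2 * (4 * Real.pi ^ 2 * ν * Pool.Agent.H356R3.NS.sq k) := by
            have h15 : 9 ≤ Real.pi ^ 2 := by nlinarith [Real.pi_gt_three]
            have h16 : 8 * Real.pi ^ 2 * ν * 4 ^ (n + 1) ≤ 8 * Real.pi ^ 2 * ν *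
                Pool.Agent.H356R3.NS.sq k := mul_le_mul_of_nonneg_left h12 (by positivity)
            have h17 : 0 < ν * 4 ^ (n + 1) := by positivity
            rw [ha]
            nlinarith [mul_le_mul_of_nonneg_right h15 h17.le]
          have h18 : 0 ≤ rh 3 (2 ^ (n + 1)) (nn k) * en (cf (u s) k) :=
            mul_nonneg (rh_nonneg _ _ _) (en_nonneg _)
          calc 72 * a * (rh 3 (2 ^ (n + 1)) (nn k) * en (cf (u s) k))
              ≤ (2 * (4 * Real.pi ^ 2 * ν * Pool.Agent.H356R3.NS.sq k)) *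
                (rh 3 (2 ^ (n + 1)) (nn k) * en (cf (u s) k)) := mul_le_mul_of_nonneg_right h14 h18
            _ = _ := by ring
      have h19 := bar_arith hν ha hy1 hy3 hκR hη rfl
      have h20 : D1 s ≤ -(72 * a * G) + ((1824 * g s + 6041088 * (lam ^ n * √y)) * y + η) := by
        rw [hD1]
        linarith
      have h21 : 1824 * (a * Psi a g s) * y ≤ a * y := by
        have := mul_le_mul_of_nonneg_right (hΨ1 s hsI) (by positivity : 0 ≤ a * y)
        linarith
      have h22 : y - κ = G := by rw [hy]; ring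
      rw [h22] at h19
      show D1 s * E + y * (E * -(1824 * (g s - a * Psi a g s))) < 0
      have h23 : D1 s - 1824 * (g s - a * Psi a g s) * y < 0 := by linarith
      have h24 : D1 s * E + y * (E * -(1824 * (g s - a * Psi a g s)))
          = (D1 s - 1824 * (g s - a * Psi a g s) * y) * E := by ring
      rw [h24]
      exact mul_neg_of_neg_of_pos h23 hEpos) t ⟨ht.1, hb1⟩
  have key2 : (κ + We 3 (bb R') (n + 1) (cf (u t))) * Real.exp (-(1824 * Psi a g t)) ≤ Rs ν n := key
  have h1 := hexp t ht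
  have h2 : 0 ≤ κ + We 3 (bb R') (n + 1) (cf (u t)) := add_nonneg hκp (We_nonneg _ _ _ _)
  nlinarith

end

end Pool.Agent.K1H29.AC
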