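import Pool.Agent.K1H29.AC.Bar
import Pool.Agent.K1H29.SH.Main

/-!
# Boundedness of the velocity from the bounds of the coefficients; the initial data
-/

open Set MeasureTheory Filter Topology ComplexConjugate

namespace Pool.Agent.K1H29.AC

open Pool.Agent.H356R3.NS (K C3 Sym Bf bt dt nk)
open Pool.Agent.K1H29.SH

section

open H459R3.NS Pool.Agent.K1H60.HS

variable {ν T : ℝ} {u : ℝ → V → V} {p : ℝ → V → ℝ}

lemma sum_en_le (h : IsSol ν T u p) (hν : 0 < ν) {t : ℝ} (ht : t ∈ Ico 0 T) (B : Finset K) :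
    ∑ k ∈ B, en (cf (u t) k) ≤ H459R3.NS.energy (u 0) := by
  refine le_trans ?_ (h.energy_le hν ht)
  unfold en H459R3.NS.energy
  rw [Finset.sum_comm]
  refine Finset.sum_le_sum fun i _ => ?_
  have h1 := n2_fr (h.sp ht i)
  rw [n2_sq] at h1
  have h2 := summable_sq (rap_fr (h.sp ht i)).summable
  calc ∑ k ∈ B, ‖cf (u t) k i‖ ^ 2 ≤ ∑' k, ‖fr (fun y => u t y i) k‖ ^ 2 :=
        h2.sum_le_tsum _ fun _ _ => by positivity
    _ = _ := h1

lemma Fe_le_energy (h : IsSol ν T u p) (hν : 0 < ν) {t : ℝ} (ht : t ∈ Ico 0 T) (R n : ℕ) :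
    Fe (bb R) n (cf (u t)) ≤ H459R3.NS.energy (u 0) := (Fe_le _ _ _).trans (sum_en_le h hν ht _)

/-- the initial data -/
lemma init_hV (h : IsSol ν T u p) (hT : 0 < T) (σ : ℕ) :
    ∃ C, ∀ B : Finset K, ∑ k ∈ B, nn k ^ (2 * σ) * en (cf (u 0) k) ≤ C := by
  have h0 : (0 : ℝ) ∈ Ico 0 T := ⟨le_rfl, hT⟩
  refine ⟨∑ i, (∑' k, (H459R3.NS.N k : ℝ) ^ σ * ‖fr (fun y => u 0 y i) k‖) ^ 2, fun B => ?_⟩
  have h1 : ∑ k ∈ B, nn k ^ (2 * σ) * en (cf (u 0) k)
      = ∑ i, ∑ k ∈ B, ((H459R3.NS.N k : ℝ) ^ σ * ‖fr (fun y => u 0 y i) k‖) ^ 2 := by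
    rw [Finset.sum_comm]
    refine Finset.sum_congr rfl fun k _ => ?_
    unfold en
    rw [Finset.mul_sum]
    refine Finset.sum_congr rfl fun i _ => ?_
    rw [mul_pow, ← pow_mul, mul_comm σ 2]
    rfl
  rw [h1]
  refine Finset.sum_le_sum fun i _ => ?_
  have h2 := (rap_fr (h.sp h0 i)) σ
  refine (Finset.sum_sq_le_sq_sum_of_nonneg fun k _ => by positivity).trans ?_
  exact pow_le_pow_left₀ (Finset.sum_nonneg fun k _ => by positivity)
    (h2.sum_le_tsum _ fun _ _ => by positivity) 2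

lemma abs_le_of_sum (h : IsSol ν T u p) {t : ℝ} (ht : t ∈ Ico 0 T) {M : ℝ}
    (hM : ∀ R, ∑ k ∈ bb R, ‖cf (u t) k‖ ≤ M) (x : V) (i : Fin 3) : |u t x i| ≤ M := by
  have hs := (rap_fr (h.sp ht i)).summable
  have h1 := norm_S_le hs x
  rw [S_fr (h.sp ht i), Complex.norm_real, Real.norm_eq_abs] at h1
  refine h1.trans (hs.norm.tsum_le_of_sum_le fun B => ?_)
  obtain ⟨R, hR⟩ : ∃ R : ℕ, B ⊆ bb R :=
    ⟨B.sup H459R3.NS.N, fun k hk => mem_bb.2 (by
      unfold nn; exact_mod_cast Finset.le_sup (f := H459R3.NS.N) hk)⟩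
  refine le_trans ?_ (hM R)
  refine le_trans (Finset.sum_le_sum fun k _ => ?_)
    (Finset.sum_le_sum_of_subset_of_nonneg hR fun k _ _ => norm_nonneg _)
  exact norm_le_pi_norm (cf (u t) k) i

lemma card_box (m : ℕ) : ((box m).card : ℝ) ≤ 8 ^ (m + 1) := by
  unfold box
  rw [Fintype.card_piFinset]
  simp only [Int.card_Ioo, Finset.prod_const, Finset.card_univ, Fintype.card_fin]
  have h1 : (2 ^ m - -2 ^ m - 1 : ℤ).toNat ≤ 2 ^ (m + 1) := by
    rw [Int.toNat_le]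
    push_cast
    rw [pow_succ]
    linarith
  calc (((2 ^ m - -2 ^ m - 1 : ℤ).toNat ^ 3 : ℕ) : ℝ) ≤ (((2 ^ (m + 1)) ^ 3 : ℕ) : ℝ) := by
        exact_mod_cast Nat.pow_le_pow_left h1 3
    _ = 8 ^ (m + 1) := by
        push_cast
        rw [← pow_mul, mul_comm, pow_mul]
        norm_num

lemma bounded_of (hν : 0 < ν) (h : IsSol ν T u p) {n : ℕ} {G : ℝ}
    (hG : ∀ t ∈ Ico 0 T, ∀ R, Fe (bb R) n (cf (u t)) + We 3 (bb R) n (cf (u t)) ≤ G) :
    ∀ t ∈ Ico 0 T, ∀ x i, |u t x i| ≤ √(8 ^ (n + 2) * H459R3.NS.energy (u 0))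
      + 69 * (lam ^ n * √G) / 2 ^ (n + 1) := by
  classical
  set E := H459R3.NS.energy (u 0) with hE
  refine fun t ht x i => abs_le_of_sum h ht (fun R => ?_) x i
  rw [← Finset.sum_filter_add_sum_filter_not (bb R) (fun k => nn k < 2 ^ (n + 1))]
  simp only [not_lt]
  have h1 : ∑ k ∈ (bb R).filter (fun k => nn k < 2 ^ (n + 1)), ‖cf (u t) k‖
      ≤ √(8 ^ (n + 2) * E) := by
    apply Real.le_sqrt_of_sq_le
    have hsub : (bb R).filter (fun k => nn k < 2 ^ (n + 1)) ⊆ box (n + 1) := fun k hk =>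
      mem_box.2 (Finset.mem_filter.1 hk).2
    refine sq_sum_le_card_mul_sum_sq.trans ?_
    apply mul_le_mul _ _ (Finset.sum_nonneg fun _ _ => by positivity) (by positivity)
    · refine le_trans ?_ (card_box (n + 1))
      exact_mod_cast Finset.card_le_card hsub
    · refine (Finset.sum_le_sum fun k _ => norm_sq_le_en _).trans (sum_en_le h hν ht _)
  have h2 : ∑ k ∈ (bb R).filter (fun k => 2 ^ (n + 1) ≤ nn k), ‖cf (u t) k‖
      ≤ 69 * (lam ^ n * √G) / 2 ^ (n + 1) := by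
    rw [le_div_iff₀ (by positivity), Finset.sum_mul]
    refine le_trans (Finset.sum_le_sum fun k hk => ?_) ((high_sum (bb R) n (cf (u t))).trans ?_)
    · have h3 := (Finset.mem_filter.1 hk).2
      rw [mul_comm]
      exact mul_le_mul_of_nonneg_right h3 (norm_nonneg _)
    · have h5 := Real.sqrt_le_sqrt (hG t ht R)
      have h6 := lam_pos
      gcongr
  exact add_le_add h1 h2

end

/-! ### products of gains -/

/-- the product of the gains -/
noncomputable def Pr (γ : ℕ → ℝ) (n : ℕ) : ℝ := ∏ i ∈ Finset.range (n + 1), γ i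

lemma Pr_succ (γ : ℕ → ℝ) (n : ℕ) : Pr γ (n + 1) = γ (n + 1) * Pr γ n := by
  unfold Pr
  rw [Finset.prod_range_succ _ (n + 1), mul_comm]

lemma one_le_Pr {γ : ℕ → ℝ} (hγ : ∀ i, 1 ≤ γ i) (n : ℕ) : 1 ≤ Pr γ n := by
  induction n with
  | zero => unfold Pr; simpa using hγ 0
  | succ n ih =>
    rw [Pr_succ]
    exact one_le_mul_of_one_le_of_one_le (hγ _) ih

lemma Pr_mono {γ : ℕ → ℝ} (hγ : ∀ i, 1 ≤ γ i) {m n : ℕ} (h : m ≤ n) : Pr γ m ≤ Pr γ n := by
  induction n, h using Nat.le_induction with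
  | base => exact le_rfl
  | succ n _ ih =>
    rw [Pr_succ]
    exact ih.trans (le_mul_of_one_le_left (by linarith [one_le_Pr hγ n]) (hγ _))

/-- the accumulated tails of the initial data -/
noncomputable def Su (γ F : ℕ → ℝ) (n : ℕ) : ℝ := ∑ j ∈ Finset.range (n + 1), Pr γ j * F j

lemma Su_succ (γ F : ℕ → ℝ) (n : ℕ) : Su γ F (n + 1) = Su γ F n + Pr γ (n + 1) * F (n + 1) := by
  unfold Su
  rw [Finset.sum_range_succ _ (n + 1)]

lemma Su_nonneg {γ F : ℕ → ℝ} (hγ : ∀ i, 1 ≤ γ i) (hF : ∀ n, 0 ≤ F n) (n : ℕ) : 0 ≤ Su γ F n :=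
  Finset.sum_nonneg fun j _ => mul_nonneg (by linarith [one_le_Pr hγ j]) (hF j)

lemma ind_aux {E S S' F D g Q P : ℝ} (hE : 0 ≤ E) (hS : 0 ≤ S) (hQ : 0 < Q) (hg : 1 ≤ g)
    (hP : P = g * Q) (hD : 54 * D * g ≤ 1) (hS' : S + P * F ≤ S') :
    F + 54 * D * ((E + S) / Q) ≤ (E + S') / P := by
  have hP0 : 0 < P := by rw [hP]; positivity
  rw [le_div_iff₀ hP0]
  have e : (F + 54 * D * ((E + S) / Q)) * P = P * F + (54 * D * g) * (E + S) := by
    rw [hP]; field_simp
  rw [e]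
  have := mul_le_mul_of_nonneg_right hD (add_nonneg hE hS)
  linarith

section

open H459R3.NS Pool.Agent.K1H60.HS

variable {ν T : ℝ} {u : ℝ → V → V} {p : ℝ → V → ℝ}

theorem ind (hν : 0 < ν) (h : IsSol ν T u p) {E : ℝ} (hE0 : 0 ≤ E)
    (hE : ∀ t ∈ Ico 0 T, ∀ R, Fe (bb R) 0 (cf (u t)) ≤ E) {F : ℕ → ℝ} (hF0 : ∀ n, 0 ≤ F n)
    {D γ : ℕ → ℝ} (hF : ∀ n, γ n ≠ 1 → ∀ R, Fe (bb R) n (cf (u 0)) ≤ F n) (hγ : ∀ i, 1 ≤ γ i)
    (hgap : ∀ i, γ (i + 1) ≠ 1 → γ i = 1) (hDγ : ∀ i, γ i ≠ 1 → 54 * D (i + 1) * γ i ≤ 1)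
    (hD : ∀ i, γ i ≠ 1 → ∀ t ∈ Ico 0 T,
      Psi (ν * 4 ^ (i + 1)) (fun s => strain (i + 1) (u s)) t ≤ D (i + 1)) :
    ∀ n, ∀ t ∈ Ico 0 T, ∀ R, Fe (bb R) n (cf (u t)) ≤ (E + Su γ F n) / Pr γ n := by
  intro n
  induction n using Nat.strong_induction_on with
  | _ n ih =>
    match n, ih with
    | 0, _ =>
      have e1 : Pr γ 0 = γ 0 * 1 := by unfold Pr; simp
      have e2 : Su γ F 0 = Pr γ 0 * F 0 := by unfold Su; simp
      by_cases h1 : γ 0 = 1
      · intro t ht R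
        rw [e2, e1, h1]
        have := hE t ht R
        have := hF0 0
        simp only [mul_one, one_mul, div_one]
        linarith
      · intro t ht R
        have h2 := step hν h (n := 0) (X := (E + 0) / 1) (F0 := F 0) (δ := D 1) (hF0 0)
          (fun s hs R => by
            have := hE s hs R
            simpa using this) (hF 0 h1) (hD 0 h1) t ht R
        exact h2.trans (ind_aux hE0 le_rfl one_pos (hγ 0) e1 (hDγ 0 h1) (by rw [e2]; linarith))
    | m + 1, ih =>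
      have e1 := Pr_succ γ m
      have e2 := Su_succ γ F m
      have hp1 := one_le_Pr hγ m
      have hp2 := one_le_Pr hγ (m + 1)
      by_cases h1 : γ (m + 1) = 1
      · intro t ht R
        refine (Fe_anti _ _ _).trans ((ih m (by omega) t ht R).trans ?_)
        rw [e1, h1, one_mul, e2]
        apply div_le_div_of_nonneg_right _ (by linarith)
        have : 0 ≤ Pr γ (m + 1) * F (m + 1) := mul_nonneg (by linarith) (hF0 _)
        linarith
      · have h3 := hgap m h1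
        intro t ht R
        match m, ih with
        | 0, _ =>
          have e3 : Pr γ 0 = 1 := by unfold Pr; simp [h3]
          have h2 := step hν h (n := 1) (X := (E + 0) / 1) (F0 := F 1) (δ := D 2) (hF0 1)
            (fun s hs R => by
              have := hE s hs R
              simpa using this) (hF 1 h1) (hD 1 h1) t ht R
          refine h2.trans (ind_aux hE0 le_rfl one_pos (hγ 1) (by rw [e1, e3]) (hDγ 1 h1) ?_)
          rw [e2]
          have := Su_nonneg hγ hF0 0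
          linarith
        | k + 1, ih =>
          have h2 := step hν h (n := k + 2) (X := (E + Su γ F k) / Pr γ k) (F0 := F (k + 2))
            (δ := D (k + 3)) (hF0 _)
            (fun s hs R => by
              have := ih k (by omega) s hs R
              simpa using this) (hF _ h1) (hD _ h1) t ht R
          refine h2.trans (ind_aux hE0 (Su_nonneg hγ hF0 k) (by linarith [one_le_Pr hγ k])
            (hγ (k + 2)) (by rw [e1, Pr_succ, h3, one_mul]) (hDγ (k + 2) h1) ?_)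
          rw [e2, Su_succ]
          have : 0 ≤ Pr γ (k + 1) * F (k + 1) :=
            mul_nonneg (by linarith [one_le_Pr hγ (k + 1)]) (hF0 _)
          linarith

end

end Pool.Agent.K1H29.AC
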