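import Pool.Agent.K1H60.HS.Sol2
import Pool.Agent.K1H29.SH.Lim

/-!
# The Fourier coefficients of a smooth periodic solution of the Navier-Stokes equations
-/

open Set MeasureTheory Filter Topology ComplexConjugate

namespace Pool.Agent.K1H29.AC

open Pool.Agent.H356R3.NS (K C3 Sym Bf bt)
open Pool.Agent.K1H29.SH

/-- the Fourier coefficients of a vector field -/
noncomputable def cf (v : H459R3.NS.V → H459R3.NS.V) (k : K) : C3 :=
  fun i => H459R3.NS.fr (fun y => v y i) k

/-- the energy transfer of the mode `k` -/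
noncomputable def fl (c : K → C3) (k : K) : ℝ :=
  2 * (-(2 * Real.pi * Complex.I) *
    ∑' l, Pool.Agent.H356R3.NS.dt k (c l) * ipc (c (k - l)) (c k)).re

section

open H459R3.NS

lemma fr_mul {f g : V → ℝ} (hf : SP f) (hg : SP g) (k : K3) :
    HasSum (fun l => fr f l * fr g (k - l)) (fr (fun x => f x * g x) k) := by
  have h := integral_ee_S_S (-k) (rap_fr hf).summable (rap_fr hg).summable
  simp only [neg_neg, S_fr hf, S_fr hg] at h
  unfold fr fc
  simp only [Complex.ofReal_mul]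
  exact h

lemma fr_cmul (a : ℝ) (f : V → ℝ) (k : K3) : fr (fun x => a * f x) k = a * fr f k := by
  unfold fr fc
  rw [← integral_const_mul]
  congr 1
  funext x
  push_cast
  ring

lemma fr_conv {v : Fin 3 → V → ℝ} (hv : ∀ i, SP (v i)) (hdiv : ∀ x, ∑ i, pd i (v i) x = 0)
    (i : Fin 3) (k : K3) :
    HasSum (fun l => (2 * Real.pi * Complex.I) *
      ((∑ j, (k j : ℂ) * fr (v j) l) * fr (v i) (k - l))) (fr (H459R3.NS.conv v i) k) := by
  have h1 : H459R3.NS.conv v i = fun x => ∑ j, pd j (fun y => v j y * v i y) x := by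
    funext x
    unfold H459R3.NS.conv
    have e : ∀ j, pd j (fun y => v j y * v i y) x = v j x * pd j (v i) x + v i x * pd j (v j) x := by
      intro j
      rw [pd_mul (hv j) (hv i) j x]
      ring
    simp only [e, Finset.sum_add_distrib, ← Finset.mul_sum, hdiv x]
    ring
  rw [h1, fr_sum (fun j _ => ((hv j).mul (hv i)).pd j)]
  have h2 : ∀ j, HasSum (fun l => (2 * Real.pi * Complex.I * (k j : ℂ)) *
      (fr (v j) l * fr (v i) (k - l))) (fr (pd j fun y => v j y * v i y) k) := by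
    intro j
    rw [fr_pd ((hv j).mul (hv i)) j]
    exact (fr_mul (hv j) (hv i) k).mul_left _
  have h3 := hasSum_sum (s := Finset.univ) fun j _ => h2 j
  have e : (fun l => (2 * Real.pi * Complex.I) *
      ((∑ j, (k j : ℂ) * fr (v j) l) * fr (v i) (k - l)))
      = fun l => ∑ j, (2 * Real.pi * Complex.I * (k j : ℂ)) * (fr (v j) l * fr (v i) (k - l)) := by
    funext l
    rw [Finset.sum_mul, Finset.mul_sum]
    exact Finset.sum_congr rfl fun j _ => by ring
  rw [e]
  exact h3

variable {ν T : ℝ} {u : ℝ → V → V} {p : ℝ → V → ℝ}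

lemma cf_sym (v : V → V) : Sym (cf v) := fun k i => Pool.Agent.K1H60.HS.herm_fr _ k

lemma cf_div (h : IsSol ν T u p) {t : ℝ} (ht : t ∈ Ico 0 T) (k : K3) :
    Pool.Agent.H356R3.NS.dt k (cf (u t) k) = 0 :=
  fr_div (v := fun i y => u t y i) (fun i => h.sp ht i) (h.divfree t ht) k

lemma hasDerivAt_cf (h : IsSol ν T u p) {t : ℝ} (ht : t ∈ Ioo 0 T) (k : K3) :
    HasDerivAt (fun s => cf (u s) k) (fun i => fr (Pool.Agent.K1H60.HS.rhs ν u p i t) k) t := by
  refine hasDerivAt_pi.2 fun i => ?_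
  have h1 := (Pool.Agent.K1H60.HS.sf_u h i).hasDerivAt_fr ht k
  have h2 : H459R3.NS.dt (fun t y => u t y i) t = Pool.Agent.K1H60.HS.rhs ν u p i t :=
    funext fun x => h.dt_eq ht i x
  rw [h2] at h1
  exact h1

lemma fr_rhs (h : IsSol ν T u p) {t : ℝ} (ht : t ∈ Ioo 0 T) (i : Fin 3) (k : K3) :
    fr (Pool.Agent.K1H60.HS.rhs ν u p i t) k =
      -((4 * Real.pi ^ 2 * ν * Pool.Agent.H356R3.NS.sq k : ℝ) : ℂ) * cf (u t) k i
      - fr (H459R3.NS.conv (fun i y => u t y i) i) k
      - (2 * Real.pi * Complex.I * (k i : ℂ)) * fr (p t) k := by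
  have hI : t ∈ Ico 0 T := ⟨ht.1.le, ht.2⟩
  have hsp : ∀ i, SP (fun y => u t y i) := fun i => h.sp hI i
  have e : Pool.Agent.K1H60.HS.rhs ν u p i t = fun x => (ν * lap (fun y => u t y i) x
    - H459R3.NS.conv (fun i y => u t y i) i x) - pd i (p t) x := rfl
  have s1 : SP (fun x => ν * lap (fun y => u t y i) x) :=
    ⟨contDiff_const.mul (hsp i).lap.smooth, fun j x => by simp only [(hsp i).lap.per j x]⟩
  rw [e, Pool.Agent.K1H60.HS.fr_sub (s1.sub (sp_conv hsp i)) ((h.sp_p hI).pd i)]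
  simp only
  rw [Pool.Agent.K1H60.HS.fr_sub s1 (sp_conv hsp i)]
  simp only
  rw [fr_cmul, Pool.Agent.K1H60.HS.fr_lap (hsp i), fr_pd (h.sp_p hI)]
  have e2 : ((Pool.Agent.K1H60.HS.lm k : ℂ)) ^ 2
      = ((4 * Real.pi ^ 2 * Pool.Agent.H356R3.NS.sq k : ℝ) : ℂ) := by
    rw [← Complex.ofReal_pow, Pool.Agent.K1H60.HS.lm_sq]
    congr 1
    unfold Pool.Agent.H356R3.NS.sq
    rw [Finset.mul_sum]
    exact Finset.sum_congr rfl fun j _ => by ring
  rw [e2]
  unfold D cf
  push_cast
  ring

lemma ipc_sub_left (v v' w : C3) : ipc (v - v') w = ipc v w - ipc v' w := by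
  unfold ipc
  rw [← Finset.sum_sub_distrib]
  exact Finset.sum_congr rfl fun i _ => by simp [sub_mul]

/-- the energy balance of one mode -/
lemma hasDerivAt_en (h : IsSol ν T u p) {t : ℝ} (ht : t ∈ Ioo 0 T) (k : K) :
    HasDerivAt (fun s => en (cf (u s) k))
      (-(2 * ((4 * Real.pi ^ 2 * ν * Pool.Agent.H356R3.NS.sq k) * en (cf (u t) k)))
        + fl (cf (u t)) k) t := by
  have hI : t ∈ Ico 0 T := ⟨ht.1.le, ht.2⟩
  have hsp : ∀ i, SP (fun y => u t y i) := fun i => h.sp hI i
  have h1 := en_deriv (hasDerivAt_cf h ht k).hasDerivWithinAt (S := univ)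
  rw [hasDerivWithinAt_univ] at h1
  refine h1.congr_deriv ?_
  set c := cf (u t) with hc
  have hdc : Pool.Agent.H356R3.NS.dt k (c k) = 0 := cf_div h hI k
  have h0 : ∑ i, (k i : ℂ) * conj (c k i) = 0 := by
    have := congrArg conj hdc
    unfold Pool.Agent.H356R3.NS.dt at this
    rw [map_sum, map_zero] at this
    rw [← this]
    refine Finset.sum_congr rfl fun i _ => ?_
    rw [map_mul]
    simp
  have h2 : HasSum (fun l => (2 * Real.pi * Complex.I) *
      (Pool.Agent.H356R3.NS.dt k (c l) * ipc (c (k - l)) (c k)))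
      (∑ i, fr (H459R3.NS.conv (fun i y => u t y i) i) k * conj (c k i)) := by
    have h3 := hasSum_sum (s := Finset.univ) fun i _ =>
      (fr_conv hsp (h.divfree t hI) i k).mul_right (conj (c k i))
    have e : (fun l => (2 * Real.pi * Complex.I) *
        (Pool.Agent.H356R3.NS.dt k (c l) * ipc (c (k - l)) (c k)))
        = fun l => ∑ i, (2 * Real.pi * Complex.I) *
          ((∑ j, (k j : ℂ) * fr (fun y => u t y j) l) * fr (fun y => u t y i) (k - l))
          * conj (c k i) := by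
      funext l
      unfold ipc Pool.Agent.H356R3.NS.dt
      rw [Finset.mul_sum, Finset.mul_sum]
      refine Finset.sum_congr rfl fun i _ => ?_
      simp only [hc, cf]
      ring
    rw [e]
    exact h3
  have h4 : ipc (fun i => fr (Pool.Agent.K1H60.HS.rhs ν u p i t) k) (c k)
      = -((4 * Real.pi ^ 2 * ν * Pool.Agent.H356R3.NS.sq k * en (c k) : ℝ) : ℂ)
        - (2 * Real.pi * Complex.I) *
          ∑' l, Pool.Agent.H356R3.NS.dt k (c l) * ipc (c (k - l)) (c k) := by
    rw [← tsum_mul_left, h2.tsum_eq]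
    have h5 : ∑ i, (c k i) * conj (c k i) = ((en (c k) : ℝ) : ℂ) := ipc_self (c k)
    unfold ipc
    simp only [fr_rhs h ht]
    calc ∑ i, (-((4 * Real.pi ^ 2 * ν * Pool.Agent.H356R3.NS.sq k : ℝ) : ℂ) * cf (u t) k i
          - fr (H459R3.NS.conv (fun i y => u t y i) i) k
          - (2 * Real.pi * Complex.I * (k i : ℂ)) * fr (p t) k) * conj (c k i)
        = -((4 * Real.pi ^ 2 * ν * Pool.Agent.H356R3.NS.sq k : ℝ) : ℂ) * ∑ i, (c k i) * conj (c k i)
          - ∑ i, fr (H459R3.NS.conv (fun i y => u t y i) i) k * conj (c k i)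
          - (2 * Real.pi * Complex.I) * fr (p t) k * ∑ i, (k i : ℂ) * conj (c k i) := by
          rw [Finset.mul_sum, Finset.mul_sum, ← Finset.sum_sub_distrib, ← Finset.sum_sub_distrib]
          refine Finset.sum_congr rfl fun i _ => ?_
          rw [hc]
          ring
      _ = _ := by
          rw [h0, h5]
          push_cast
          ring
  rw [h4]
  unfold fl
  rw [Complex.sub_re, Complex.neg_re, Complex.ofReal_re, neg_mul, Complex.neg_re]
  ring

end

end Pool.Agent.K1H29.AC
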