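import Pool.Agent.K1H29.AC.Bnd

/-!
# The product of the gains
-/

open Set MeasureTheory Filter Topology ComplexConjugate

namespace Pool.Agent.K1H29.AC

open Pool.Agent.H356R3.NS (K C3 Sym Bf bt dt nk)
open Pool.Agent.K1H29.SH

open H459R3.NS Pool.Agent.K1H60.HS

variable {ν T : ℝ} {u : ℝ → V → V} {p : ℝ → V → ℝ}

/-- the bounds of the initial tails, from the index `J` on -/
noncomputable def Fi (C : ℝ) (J : ℕ) (j : ℕ) : ℝ := if j < J then 0 else 64 * C / 64 ^ j

lemma Fi_nonneg {C : ℝ} (hC : 0 ≤ C) (J j : ℕ) : 0 ≤ Fi C J j := by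
  unfold Fi; split_ifs <;> positivity

/-- If the product of the gains of a sparse sequence of scales exceeds a multiple of `2^N`, then the
velocity is bounded by a multiple of `8^(N/2)`. -/
theorem cross (hν : 0 < ν) (hT : 0 < T) (h : IsSol ν T u p) {D γ : ℕ → ℝ} (hγ : ∀ i, 1 ≤ γ i)
    (hgap : ∀ i, γ (i + 1) ≠ 1 → γ i = 1) {J N : ℕ} (hγJ : ∀ i, i < J → γ i = 1)
    (hDγ : ∀ i, γ i ≠ 1 → 2000 * D (i + 1) * γ i ≤ 1)
    (hD : ∀ i, γ i ≠ 1 → ∀ t ∈ Ico 0 T,
      Psi (ν * 4 ^ (i + 1)) (fun s => strain (i + 1) (u s)) t ≤ D (i + 1)) {C : ℝ}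
    (hC : ∀ B : Finset K, ∑ k ∈ B, nn k ^ (2 * 3) * en (cf (u 0) k) ≤ C)
    (hCJ : 10 ^ 13 * C ≤ ν ^ 2 * 32 ^ J)
    (hun : (64 * 10 ^ 9 * (H459R3.NS.energy (u 0) / ν ^ 2) + 1) * 2 ^ N < Pr γ N) :
    ∀ t ∈ Ico 0 T, ∀ x i, (u t x i) ^ 2 ≤ 8 ^ (N + 4) * (H459R3.NS.energy (u 0) + ν ^ 2) := by
  classical
  set E := H459R3.NS.energy (u 0) with hE
  have h0 : (0 : ℝ) ∈ Ico 0 T := ⟨le_rfl, hT⟩
  have hE0 : 0 ≤ E := (Fe_nonneg _ _ _).trans (Fe_le_energy h hν h0 0 0)
  have hC0 : 0 ≤ C := (hC ∅).trans' (by simp)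
  set F : ℕ → ℝ := Fi C J with hF
  have hF0 : ∀ n, 0 ≤ F n := Fi_nonneg hC0 J
  have hFJ : ∀ n, J ≤ n → F n = 64 * C / 64 ^ n := fun n hn => by
    rw [hF]; unfold Fi; rw [if_neg (by omega)]
  have hγJ' : ∀ n, γ n ≠ 1 → J ≤ n := fun n hn => by
    by_contra hc
    exact hn (hγJ n (by omega))
  have hFb : ∀ n, γ n ≠ 1 → ∀ R, Fe (bb R) n (cf (u 0)) ≤ F n := fun n hn R => by
    rw [hFJ n (hγJ' n hn)]
    exact (tail_bound hC n (bb R)).1
  have hD0 : ∀ i, γ i ≠ 1 → 0 ≤ D (i + 1) := fun i hi => by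
    have := hD i hi 0 h0
    rwa [Psi_zero] at this
  have hγ0 : ∀ i, 0 < γ i := fun i => one_pos.trans_le (hγ i)
  have hI := ind hν h hE0 (fun t ht R => Fe_le_energy h hν ht R 0) hF0 hFb hγ hgap
    (fun i hi => by
      have h1 := hDγ i hi
      have h2 : 0 ≤ D (i + 1) * γ i := mul_nonneg (hD0 i hi) (hγ0 i).le
      linarith) hD
  set c0 : ℝ := ν ^ 2 / (32 * 10 ^ 9) with hc0
  have hc0p : 0 < c0 := by positivity
  have hJ' : 64 * C / 32 ^ J * 2 ≤ c0 / 2 := by
    rw [hc0, div_mul_eq_mul_div, div_div, div_le_div_iff₀ (by positivity) (by positivity)]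
    linarith
  set Kc : ℝ := 64 * 10 ^ 9 * (E / ν ^ 2) + 1 with hKc
  have hK1 : 1 ≤ Kc := by
    rw [hKc]
    have : 0 ≤ 64 * 10 ^ 9 * (E / ν ^ 2) := by positivity
    linarith
  have hK2 : E / Kc ≤ c0 / 2 := by
    rw [div_le_iff₀ (by linarith)]
    have h1 : c0 / 2 * (64 * 10 ^ 9 * (E / ν ^ 2)) = E := by rw [hc0]; field_simp; norm_num
    rw [hKc, mul_add, h1]
    linarith
  -- the first crossing
  have hex : ∃ n, Kc * 2 ^ n < Pr γ n := ⟨N, hun⟩
  set n := Nat.find hex with hn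
  have hnN : n ≤ N := Nat.find_min' hex hun
  have hn1 : Kc * 2 ^ n < Pr γ n := Nat.find_spec hex
  have hn2 : ∀ j < n, Pr γ j ≤ Kc * 2 ^ j := fun j hj => not_lt.1 (Nat.find_min hex hj)
  have hP1 : ∀ j, j < J → Pr γ j = 1 := fun j hj => by
    unfold Pr
    exact Finset.prod_eq_one fun i hi => hγJ i (by have := Finset.mem_range.1 hi; omega)
  have hγn : γ n ≠ 1 := by
    intro hc
    rcases Nat.eq_zero_or_pos n with h1 | h1
    · rw [h1] at hn1 hc
      unfold Pr at hn1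
      simp only [zero_add, Finset.prod_range_one, pow_zero, mul_one] at hn1
      linarith
    · obtain ⟨m, hm⟩ : ∃ m, n = m + 1 := ⟨n - 1, by omega⟩
      have hPm := hn2 m (by omega)
      rw [hm] at hn1 hc
      rw [Pr_succ, hc, one_mul] at hn1
      have : Kc * 2 ^ m ≤ Kc * 2 ^ (m + 1) :=
        mul_le_mul_of_nonneg_left (pow_le_pow_right₀ (by norm_num) (by omega)) (by linarith)
      linarith
  have hJn : J ≤ n := hγJ' n hγn
  have hDn : 1824 * D (n + 1) ≤ 1 := by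
    have h1 := hDγ n hγn
    have h3 := hD0 n hγn
    have h2 : D (n + 1) ≤ D (n + 1) * γ n := le_mul_of_one_le_right h3 (hγ n)
    linarith
  -- the accumulated tails
  have hF32 : ∀ j, J ≤ j → 2 ^ j * F j = 64 * C / 32 ^ j := fun j hj => by
    rw [hFJ j hj, show (64 : ℝ) ^ j = 2 ^ j * 32 ^ j by rw [← mul_pow]; norm_num]
    field_simp
  have hSu : ∀ j, j < n → Su γ F j ≤ Kc * (64 * C / 32 ^ J * 2 - 64 * C / 32 ^ j)
      ∨ (j < J ∧ Su γ F j = 0) := by
    intro j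
    induction j with
    | zero =>
      intro _
      rcases Nat.eq_zero_or_pos J with h1 | h1
      · left
        unfold Su
        simp only [zero_add, Finset.sum_range_one]
        have h2 := hF32 0 (by omega)
        rw [pow_zero, one_mul] at h2
        rw [h2, h1]
        have h3 := hn2 0 (by omega)
        simp only [pow_zero, mul_one, div_one] at h3 ⊢
        nlinarith
      · right
        refine ⟨h1, ?_⟩
        unfold Su
        simp only [zero_add, Finset.sum_range_one]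
        have : F 0 = 0 := by rw [hF]; unfold Fi; rw [if_pos h1]
        rw [this, mul_zero]
    | succ j ih =>
      intro hjn
      rw [Su_succ]
      rcases lt_or_ge (j + 1) J with h1 | h1
      · right
        refine ⟨h1, ?_⟩
        have h2 : F (j + 1) = 0 := by rw [hF]; unfold Fi; rw [if_pos h1]
        rw [h2, mul_zero, add_zero]
        unfold Su
        refine Finset.sum_eq_zero fun i hi => ?_
        have h3 : F i = 0 := by
          rw [hF]; unfold Fi; rw [if_pos (by have := Finset.mem_range.1 hi; omega)]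
        rw [h3, mul_zero]
      · left
        have h2 : Pr γ (j + 1) * F (j + 1) ≤ Kc * (64 * C / 32 ^ (j + 1)) := by
          rw [← hF32 (j + 1) h1, ← mul_assoc]
          exact mul_le_mul_of_nonneg_right (hn2 _ hjn) (hF0 _)
        have e : 64 * C / 32 ^ j = 32 * (64 * C / 32 ^ (j + 1)) := by rw [pow_succ]; field_simp
        have h3 : 0 ≤ 64 * C / 32 ^ (j + 1) := by positivity
        rcases ih (by omega) with h4 | h4
        · have h5 : Kc * (64 * C / 32 ^ J * 2 - 64 * C / 32 ^ j) + Kc * (64 * C / 32 ^ (j + 1))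
              ≤ Kc * (64 * C / 32 ^ J * 2 - 64 * C / 32 ^ (j + 1)) := by
            rw [← mul_add]
            apply mul_le_mul_of_nonneg_left _ (by linarith)
            linarith
          linarith
        · rw [h4.2, zero_add]
          have h6 : J = j + 1 := by omega
          refine h2.trans (mul_le_mul_of_nonneg_left ?_ (by linarith))
          rw [h6]
          linarith
  -- the energy of the small scales
  set κ : ℝ := (E + Su γ F n) / Pr γ n with hκ
  have hPn : 0 < Pr γ n := by linarith [one_le_Pr hγ n]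
  have hSuPos : ∀ m, 0 ≤ Su γ F m := Su_nonneg hγ hF0
  have hSn : ∃ S', Su γ F n = S' + Pr γ n * F n ∧ 0 ≤ S' ∧
      S' ≤ Kc * (64 * C / 32 ^ J * 2 - 64 * C / 32 ^ n) := by
    rcases Nat.eq_zero_or_pos n with h1 | h1
    · refine ⟨0, ?_, le_rfl, ?_⟩
      · rw [h1]; unfold Su; simp
      · have : J = 0 := by omega
        rw [h1, this]
        have : 0 ≤ 64 * C / 32 ^ 0 := by positivity
        apply mul_nonneg (by linarith)
        linarith
    · obtain ⟨m, hm⟩ : ∃ m, n = m + 1 := ⟨n - 1, by omega⟩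
      refine ⟨Su γ F m, by rw [hm, Su_succ], hSuPos m, ?_⟩
      have h2 : 64 * C / 32 ^ n ≤ 64 * C / 32 ^ m := by
        apply div_le_div_of_nonneg_left (by positivity) (by positivity)
        exact pow_le_pow_right₀ (by norm_num) (by omega)
      have h3 : 64 * C / 32 ^ n ≤ 64 * C / 32 ^ J := by
        apply div_le_div_of_nonneg_left (by positivity) (by positivity)
        exact pow_le_pow_right₀ (by norm_num) hJn
      rcases hSu m (by omega) with h4 | h4
      · refine h4.trans (mul_le_mul_of_nonneg_left ?_ (by linarith))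
        linarith
      · rw [h4.2]
        apply mul_nonneg (by linarith)
        have : 0 ≤ 64 * C / 32 ^ J := by positivity
        linarith
  obtain ⟨S', hS1, hS0, hS2⟩ := hSn
  have hFκ : F n ≤ κ := by
    rw [hκ, le_div_iff₀ hPn, hS1]
    linarith
  have hκR : κ ≤ c0 / 2 ^ n := by
    have h2 : κ = (E + S') / Pr γ n + F n := by
      rw [hκ, hS1]
      field_simp
      ring
    have h3 : (E + S') / Pr γ n ≤ (E + S') / (Kc * 2 ^ n) :=
      div_le_div_of_nonneg_left (add_nonneg hE0 hS0) (by positivity) hn1.le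
    have h4 : (E + S') / (Kc * 2 ^ n)
        ≤ (E + Kc * (64 * C / 32 ^ J * 2 - 64 * C / 32 ^ n)) / (Kc * 2 ^ n) := by
      apply div_le_div_of_nonneg_right _ (by positivity)
      linarith
    have h5 : (E + Kc * (64 * C / 32 ^ J * 2 - 64 * C / 32 ^ n)) / (Kc * 2 ^ n)
        = (E / Kc + (64 * C / 32 ^ J * 2 - 64 * C / 32 ^ n)) / 2 ^ n := by
      field_simp
    have h6 : F n = (64 * C / 32 ^ n) / 2 ^ n := by
      rw [← hF32 n hJn]
      field_simp
    have h8 : (E / Kc + (64 * C / 32 ^ J * 2 - 64 * C / 32 ^ n)) / 2 ^ n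
        + (64 * C / 32 ^ n) / 2 ^ n ≤ c0 / 2 ^ n := by
      rw [← add_div]
      apply div_le_div_of_nonneg_right _ (by positivity)
      linarith
    rw [h2, h6]
    linarith
  have hRs : Rs ν n = 8 * (c0 / 2 ^ n) := by
    unfold Rs
    rw [hc0]
    field_simp
    norm_num
  have hc02 : 0 < c0 / 2 ^ n := by positivity
  have hbar := barrier' hν h (n := n) (κ := κ) (κ0 := κ) (δ := D (n + 1)) hDn
    (fun t ht R => hI n t ht R) (by rw [hRs]; linarith)
    (fun R => by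
      refine ((tail_bound hC (n + 1) (bb R)).2).trans (le_trans ?_ hFκ)
      rw [hFJ n hJn, div_le_div_iff₀ (by positivity) (by positivity), pow_succ]
      have : 0 ≤ C * 64 ^ n := by positivity
      nlinarith) (by rw [hRs]; linarith) (hD n hγn)
  intro t ht x i
  have hb := bounded_of hν h (n := n + 1) (G := 4 * Rs ν n) (fun t ht R => by
    have h1 := (Fe_anti (bb R) n (cf (u t))).trans (hI n t ht R)
    have h2 := hbar t ht R
    have h3 : κ ≤ Rs ν n := by rw [hRs]; linarith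
    linarith) t ht x i
  have hlp := lam_pos
  -- the second term
  have h69 : 69 * (lam ^ (n + 1) * √(4 * Rs ν n)) / 2 ^ (n + 1 + 1) ≤ ν * 2 ^ n := by
    rw [div_le_iff₀ (by positivity)]
    have h1 : (69 * (lam ^ (n + 1) * √(4 * Rs ν n))) ^ 2 ≤ (ν * 2 ^ n * 2 ^ (n + 1 + 1)) ^ 2 := by
      have e1 : (69 * (lam ^ (n + 1) * √(4 * Rs ν n))) ^ 2
          = 4761 * (32 ^ (n + 1) * (4 * Rs ν n)) := by
        rw [mul_pow, mul_pow, Real.sq_sqrt (by have := Rs_pos hν n; positivity), ← pow_mul,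
          mul_comm (n + 1) 2, pow_mul, lam_sq]
        norm_num
      have e2 : (ν * 2 ^ n * 2 ^ (n + 1 + 1)) ^ 2 = 16 * (ν ^ 2 * 16 ^ n) := by
        rw [show (16 : ℝ) ^ n = (2 ^ n) ^ 4 by rw [← pow_mul, mul_comm, pow_mul]; norm_num,
          pow_succ, pow_succ]
        ring
      have e3 : (32 : ℝ) ^ (n + 1) * (4 * Rs ν n) = 32 / 10 ^ 9 * (ν ^ 2 * 16 ^ n) := by
        unfold Rs
        rw [pow_succ, show (32 : ℝ) ^ n = 16 ^ n * 2 ^ n by rw [← mul_pow]; norm_num]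
        field_simp
      rw [e1, e2, e3]
      have : 0 ≤ ν ^ 2 * 16 ^ n := by positivity
      linarith
    exact le_of_sq_le_sq h1 (by positivity)
  have h1 : |u t x i| ≤ √(8 ^ (n + 1 + 2) * E) + ν * 2 ^ n := hb.trans (by linarith)
  have h2 : |u t x i| ^ 2 ≤ (√(8 ^ (n + 1 + 2) * E) + ν * 2 ^ n) ^ 2 :=
    pow_le_pow_left₀ (abs_nonneg _) h1 2
  rw [sq_abs] at h2
  have h3 : √(8 ^ (n + 1 + 2) * E) ^ 2 = 8 ^ (n + 1 + 2) * E := Real.sq_sqrt (by positivity)
  have h4 : (8 : ℝ) ^ n ≤ 8 ^ N := pow_le_pow_right₀ (by norm_num) hnN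
  have h5 : ((2 : ℝ) ^ n) ^ 2 ≤ 8 ^ n := by
    rw [← pow_mul, mul_comm, pow_mul]
    exact pow_le_pow_left₀ (by norm_num) (by norm_num) n
  have h6 : (√(8 ^ (n + 1 + 2) * E) + ν * 2 ^ n) ^ 2
      ≤ 2 * (8 ^ (n + 1 + 2) * E) + 2 * (ν ^ 2 * 8 ^ n) := by
    have h7 : (√(8 ^ (n + 1 + 2) * E) + ν * 2 ^ n) ^ 2
        ≤ 2 * √(8 ^ (n + 1 + 2) * E) ^ 2 + 2 * (ν * 2 ^ n) ^ 2 := by
      nlinarith [sq_nonneg (√(8 ^ (n + 1 + 2) * E) - ν * 2 ^ n)]
    rw [h3, mul_pow] at h7
    have := mul_le_mul_of_nonneg_left h5 (sq_nonneg ν)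
    linarith
  refine h2.trans (h6.trans ?_)
  have e8 : (8 : ℝ) ^ (n + 1 + 2) = 512 * 8 ^ n := by rw [pow_add, pow_add]; norm_num; ring
  have e9 : (8 : ℝ) ^ (N + 4) = 4096 * 8 ^ N := by rw [pow_add]; norm_num; ring
  rw [e8, e9]
  have h10 : 8 ^ n * E ≤ 8 ^ N * E := mul_le_mul_of_nonneg_right h4 hE0
  have h11 : 8 ^ n * ν ^ 2 ≤ 8 ^ N * ν ^ 2 := mul_le_mul_of_nonneg_right h4 (sq_nonneg ν)
  have h12 : 0 ≤ 8 ^ N * E := by positivity
  have h13 : 0 ≤ 8 ^ N * ν ^ 2 := by positivity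
  nlinarith

/-- the gain at the scale `m` -/
noncomputable def gain (D : ℕ → ℝ) (m : ℕ) : ℝ := max 1 (1 / (2000 * D m))

lemma one_le_gain (D : ℕ → ℝ) (m : ℕ) : 1 ≤ gain D m := le_max_left _ _

lemma gain_ne {D : ℕ → ℝ} {m : ℕ} (hD0 : 0 ≤ D m) (h : gain D m ≠ 1) :
    2000 * D m * gain D m ≤ 1 := by
  unfold gain at *
  have h1 : 1 < 1 / (2000 * D m) := by
    by_contra hc
    exact h (max_eq_left (not_lt.1 hc))
  rw [max_eq_right h1.le]
  rcases eq_or_lt_of_le hD0 with h2 | h2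
  · rw [← h2]; simp
  · rw [mul_one_div_cancel (by positivity)]

/-- the gains of the scales of one parity in the window `[J, N]` -/
noncomputable def gp (D : ℕ → ℝ) (J N e : ℕ) (i : ℕ) : ℝ :=
  if i % 2 = e ∧ J ≤ i + 1 ∧ i + 1 ≤ N then gain D (i + 1) else 1

theorem window (hν : 0 < ν) (h : IsSol ν T u p) {J N : ℕ} (hJ : 1 ≤ J) (hJN : J ≤ N) {D : ℕ → ℝ}
    (hD : ∀ m ∈ Finset.Icc J N, ∀ t ∈ Ico 0 T,
      Psi (ν * 4 ^ m) (fun s => strain m (u s)) t ≤ D m) {C : ℝ}
    (hC : ∀ B : Finset K, ∑ k ∈ B, nn k ^ (2 * 3) * en (cf (u 0) k) ≤ C)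
    (hCJ : 10 ^ 15 * C ≤ ν ^ 2 * 32 ^ J)
    (hun : (10 ^ 11 * (H459R3.NS.energy (u 0) / ν ^ 2) + 1) ^ 2 * 4 ^ N < ∏ m ∈ Finset.Icc J N, gain D m) :
    ∀ t ∈ Ico 0 T, ∀ x i, (u t x i) ^ 2 ≤ 8 ^ (N + 4) * (H459R3.NS.energy (u 0) + ν ^ 2) := by
  intro t ht x i
  have hT : 0 < T := ht.1.trans_lt ht.2
  have h0 : (0 : ℝ) ∈ Ico 0 T := ⟨le_rfl, hT⟩
  have hD0 : ∀ m ∈ Finset.Icc J N, 0 ≤ D m := fun m hm => by
    have := hD m hm 0 h0
    rwa [Psi_zero] at this
  have hE0 : 0 ≤ H459R3.NS.energy (u 0) := (Fe_nonneg _ _ _).trans (Fe_le_energy h hν h0 0 0)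
  have hgp1 : ∀ e i, 1 ≤ gp D J N e i := fun e i => by
    unfold gp
    split_ifs
    · exact one_le_gain _ _
    · exact le_rfl
  have hgne : ∀ {e i}, gp D J N e i ≠ 1 → i % 2 = e ∧ J ≤ i + 1 ∧ i + 1 ≤ N := fun {e i} hi => by
    unfold gp at hi
    by_contra hc
    exact hi (if_neg hc)
  obtain ⟨M, rfl⟩ : ∃ M, N = M + 1 := ⟨N - 1, by omega⟩
  set Kc : ℝ := 10 ^ 11 * (H459R3.NS.energy (u 0) / ν ^ 2) + 1 with hKc
  have hKc1 : 1 ≤ Kc := by
    rw [hKc]
    have : 0 ≤ 10 ^ 11 * (H459R3.NS.energy (u 0) / ν ^ 2) := by positivity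
    linarith
  -- the product over the window is the product of the two parities
  have hprod : ∏ m ∈ Finset.Icc J (M + 1), gain D m
      = Pr (gp D J (M + 1) 0) M * Pr (gp D J (M + 1) 1) M := by
    unfold Pr
    rw [← Finset.prod_mul_distrib]
    have e1 : ∏ m ∈ Finset.Icc J (M + 1), gain D m
        = ∏ i ∈ Finset.range (M + 1), if J ≤ i + 1 then gain D (i + 1) else 1 := by
      rw [← Finset.prod_filter]
      refine Finset.prod_nbij' (fun m => m - 1) (fun i => i + 1) ?_ ?_ ?_ ?_ ?_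
      · intro m hm
        rw [Finset.mem_Icc] at hm
        rw [Finset.mem_filter, Finset.mem_range]
        omega
      · intro i hi
        rw [Finset.mem_filter, Finset.mem_range] at hi
        rw [Finset.mem_Icc]
        omega
      · intro m hm
        rw [Finset.mem_Icc] at hm
        show m - 1 + 1 = m
        omega
      · intro i _
        show i + 1 - 1 = i
        omega
      · intro m hm
        rw [Finset.mem_Icc] at hm
        show gain D m = gain D (m - 1 + 1)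
        rw [show m - 1 + 1 = m by omega]
    rw [e1]
    refine Finset.prod_congr rfl fun i hi => ?_
    have h1 := Finset.mem_range.1 hi
    unfold gp
    rcases Nat.mod_two_eq_zero_or_one i with h2 | h2
    · rw [h2]
      by_cases h3 : J ≤ i + 1
      · rw [if_pos h3, if_pos ⟨rfl, h3, by omega⟩, if_neg (by omega), mul_one]
      · rw [if_neg h3, if_neg (by omega), if_neg (by omega), mul_one]
    · rw [h2]
      by_cases h3 : J ≤ i + 1
      · rw [if_pos h3, if_neg (by omega), if_pos ⟨rfl, h3, by omega⟩, one_mul]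
      · rw [if_neg h3, if_neg (by omega), if_neg (by omega), mul_one]
  have hcase : ∃ e, e < 2 ∧ Kc * 2 ^ (M + 1) < Pr (gp D J (M + 1) e) M := by
    by_contra hc
    push Not at hc
    have h1 := hc 0 (by norm_num)
    have h2 := hc 1 (by norm_num)
    rw [hprod] at hun
    have h3 := one_le_Pr (hgp1 0) M
    have h4 := one_le_Pr (hgp1 1) M
    have h5 : Pr (gp D J (M + 1) 0) M * Pr (gp D J (M + 1) 1) M
        ≤ (Kc * 2 ^ (M + 1)) * (Kc * 2 ^ (M + 1)) := mul_le_mul h1 h2 (by linarith) (by positivity)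
    have h6 : (Kc * 2 ^ (M + 1)) * (Kc * 2 ^ (M + 1)) = Kc ^ 2 * 4 ^ (M + 1) := by
      rw [show (4 : ℝ) ^ (M + 1) = 2 ^ (M + 1) * 2 ^ (M + 1) by rw [← mul_pow]; norm_num]; ring
    linarith
  obtain ⟨e, he, hP⟩ := hcase
  have key := cross hν hT h (D := D) (γ := gp D J (M + 1) e) (hgp1 e) (J := J - 1) (N := M)
    (fun i hi => by
      have h1 := hgne hi
      unfold gp
      rw [if_neg (by omega)])
    (fun i hi => by
      unfold gp
      rw [if_neg (by omega)])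
    (fun i hi => by
      have h1 := hgne hi
      have h2 : gp D J (M + 1) e i = gain D (i + 1) := by
        unfold gp
        rw [if_pos h1]
      rw [h2] at hi ⊢
      exact gain_ne (hD0 _ (Finset.mem_Icc.2 h1.2)) hi)
    (fun i hi => hD (i + 1) (Finset.mem_Icc.2 (hgne hi).2)) hC (by
      obtain ⟨m, rfl⟩ : ∃ m, J = m + 1 := ⟨J - 1, by omega⟩
      rw [Nat.add_sub_cancel]
      have e32 : (32 : ℝ) ^ (m + 1) = 32 * 32 ^ m := by rw [pow_succ]; ring
      rw [e32] at hCJ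
      have hC0 : 0 ≤ C := (hC ∅).trans' (by simp)
      linarith) (by
      refine lt_of_le_of_lt ?_ hP
      apply mul_le_mul
      · rw [hKc]
        have : 0 ≤ H459R3.NS.energy (u 0) / ν ^ 2 := by positivity
        linarith
      · exact pow_le_pow_right₀ (by norm_num) (by omega)
      · positivity
      · linarith) t ht x i
  refine key.trans ?_
  apply mul_le_mul_of_nonneg_right _ (by positivity)
  exact pow_le_pow_right₀ (by norm_num) (by omega)

lemma summable_H3 (h : IsSol ν T u p) (hT : 0 < T) : Summable fun k : K =>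
    (∑ j, (k j : ℝ) ^ 2) ^ 3 * ∑ i, ‖fr (fun y => u 0 y i) k‖ ^ 2 := by
  have h0 : (0 : ℝ) ∈ Ico 0 T := ⟨le_rfl, hT⟩
  have h1 : Summable fun k : K => ∑ i, 64 * ‖((H459R3.NS.N k : ℂ) ^ 3) *
      fr (fun y => u 0 y i) k‖ ^ 2 := by
    refine summable_sum fun i _ => (summable_sq ?_).mul_left 64
    refine Summable.of_norm ?_
    refine ((rap_fr (h.sp h0 i)) 3).congr fun k => ?_
    rw [norm_mul, norm_pow, Complex.norm_natCast]
  refine h1.of_nonneg_of_le (fun k => by positivity) fun k => ?_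
  rw [Finset.mul_sum]
  refine Finset.sum_le_sum fun i _ => ?_
  rw [norm_mul, norm_pow, Complex.norm_natCast, mul_pow, ← mul_assoc]
  apply mul_le_mul_of_nonneg_right _ (by positivity)
  have h2 := nk_le_two_nn k
  have h3 : ∑ j, (k j : ℝ) ^ 2 = nk k ^ 2 := (Pool.Agent.H356R3.NS.nk_sq k).symm
  rw [h3]
  calc (nk k ^ 2) ^ 3 = nk k ^ 6 := by ring
    _ ≤ (2 * nn k) ^ 6 := pow_le_pow_left₀ (Pool.Agent.H356R3.NS.nk_nonneg k) h2 6
    _ = 64 * ((H459R3.NS.N k : ℝ) ^ 3) ^ 2 := by unfold nn; ring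

lemma init_le (h : IsSol ν T u p) (hT : 0 < T) (B : Finset K) :
    ∑ k ∈ B, nn k ^ (2 * 3) * en (cf (u 0) k)
      ≤ ∑' k : K, (∑ j, (k j : ℝ) ^ 2) ^ 3 * ∑ i, ‖fr (fun y => u 0 y i) k‖ ^ 2 := by
  refine le_trans (Finset.sum_le_sum fun k _ => ?_)
    ((summable_H3 h hT).sum_le_tsum B fun k _ => by positivity)
  apply mul_le_mul_of_nonneg_right _ (en_nonneg _)
  have h3 : ∑ j, (k j : ℝ) ^ 2 = nk k ^ 2 := (Pool.Agent.H356R3.NS.nk_sq k).symm
  rw [h3, ← pow_mul]
  exact pow_le_pow_left₀ (nn_nonneg k) (nn_le_nk k) 6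

end Pool.Agent.K1H29.AC
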