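import Pool.Agent.H459R3.NS.Four

/-!
# Active scales: definitions
-/

open Set MeasureTheory

namespace Pool.Agent.K1H29.AC

/-- The frequencies `k` with `|k_j| < 2^m` for `j = 1, 2, 3`. -/
noncomputable def box (m : ℕ) : Finset (Fin 3 → ℤ) := Fintype.piFinset fun _ => Finset.Ioo (-2 ^ m) (2 ^ m)

/-- `∑_{k ∈ box m} 2 π |k| |v^(k)|`. It bounds the gradient of the part of the field `v` with the frequencies
in `box m`. -/
noncomputable def strain (m : ℕ) (v : (Fin 3 → ℝ) → Fin 3 → ℝ) : ℝ :=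
  ∑ k ∈ box m, 2 * Real.pi * √(∑ j, (k j : ℝ) ^ 2) * √(∑ i, ‖H459R3.NS.fr (fun y => v y i) k‖ ^ 2)

end Pool.Agent.K1H29.AC
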