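import Pool.Agent.K1H29.AC.Err
import Pool.Agent.K1H29.AC.Defs

/-!
# Uniform decay of the coefficients, truncated energy balances
-/

open Set MeasureTheory Filter Topology ComplexConjugate

namespace Pool.Agent.K1H29.AC

open Pool.Agent.H356R3.NS (K C3 Sym Bf bt dt nk)
open Pool.Agent.K1H29.SH

/-! ### the strain -/

lemma mem_box {m : ℕ} {k : K} : k ∈ box m ↔ nn k < 2 ^ m := by
  unfold box
  rw [Fintype.mem_piFinset]
  have h1 : nn k < 2 ^ m ↔ H459R3.NS.N k ≤ 2 ^ m - 1 := by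
    unfold nn
    have : (0 : ℕ) < 2 ^ m := by positivity
    constructor
    · intro h
      have : H459R3.NS.N k < 2 ^ m := by exact_mod_cast h
      omega
    · intro h
      have : H459R3.NS.N k < 2 ^ m := by omega
      exact_mod_cast this
  rw [h1, H459R3.NS.N_le_iff]
  refine forall_congr' fun j => ?_
  rw [Finset.mem_Ioo, ← abs_lt]
  have e : (((2 ^ m - 1 : ℕ)) : ℤ) = 2 ^ m - 1 := by
    push_cast [Nat.one_le_two_pow]
    ring
  rw [e]
  omega

lemma norm_le_sqrt_en (v : C3) : ‖v‖ ≤ √(en v) := Real.le_sqrt_of_sq_le (norm_sq_le_en v)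

lemma strain_term_nonneg (v : (Fin 3 → ℝ) → Fin 3 → ℝ) (k : K) :
    0 ≤ 2 * Real.pi * √(∑ j, (k j : ℝ) ^ 2) * √(∑ i, ‖H459R3.NS.fr (fun y => v y i) k‖ ^ 2) := by
  have := Real.pi_pos
  positivity

lemma strain_nonneg (m : ℕ) (v : (Fin 3 → ℝ) → Fin 3 → ℝ) : 0 ≤ strain m v :=
  Finset.sum_nonneg fun k _ => strain_term_nonneg v k

lemma low_le_strain (B : Finset K) (m : ℕ) (v : (Fin 3 → ℝ) → Fin 3 → ℝ) :
    ∑ k ∈ B.filter (fun k => nn k < 2 ^ m), nn k * ‖cf v k‖ ≤ strain m v / (2 * Real.pi) := by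
  have hpi := Real.pi_pos
  rw [le_div_iff₀ (by positivity), Finset.sum_mul]
  have hsub : B.filter (fun k => nn k < 2 ^ m) ⊆ box m := fun k hk =>
    mem_box.2 (Finset.mem_filter.1 hk).2
  refine le_trans (Finset.sum_le_sum fun k _ => ?_)
    (Finset.sum_le_sum_of_subset_of_nonneg hsub fun k _ _ => strain_term_nonneg v k)
  have h1 : nn k ≤ √(∑ j, (k j : ℝ) ^ 2) := nn_le_nk k
  have h2 : ‖cf v k‖ ≤ √(∑ i, ‖H459R3.NS.fr (fun y => v y i) k‖ ^ 2) := norm_le_sqrt_en _
  calc nn k * ‖cf v k‖ * (2 * Real.pi)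
      ≤ √(∑ j, (k j : ℝ) ^ 2) * √(∑ i, ‖H459R3.NS.fr (fun y => v y i) k‖ ^ 2) * (2 * Real.pi) := by
        have := nn_nonneg k
        gcongr
    _ = _ := by ring

/-! ### decay -/

section

open H459R3.NS Pool.Agent.K1H60.HS

variable {ν T : ℝ} {u : ℝ → V → V} {p : ℝ → V → ℝ}

lemma decay (h : IsSol ν T u p) {b : ℝ} (hb : b < T) (m : ℕ) :
    ∃ C, 0 ≤ C ∧ ∀ t ∈ Icc 0 b, ∀ k, (1 + nn k) ^ m * ‖cf (u t) k‖ ≤ C * wg k := by
  choose C hC0 hC using fun i => (sf_u h i).decay hb m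
  refine ⟨∑ i, C i, Finset.sum_nonneg fun i _ => hC0 i, fun t ht k => ?_⟩
  have h1 : ∀ i, (1 + nn k) ^ m * ‖cf (u t) k i‖ ≤ (∑ i, C i) * wg k := fun i =>
    (hC i t ht k).trans (mul_le_mul_of_nonneg_right
      (Finset.single_le_sum (fun j _ => hC0 j) (Finset.mem_univ i)) (wg_nonneg k))
  have hp : 0 < (1 + nn k) ^ m := by have := nn_nonneg k; positivity
  rw [mul_comm, ← le_div_iff₀ hp]
  refine (pi_norm_le_iff_of_nonneg (div_nonneg (mul_nonneg (Finset.sum_nonneg fun i _ => hC0 i)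
    (wg_nonneg k)) hp.le)).2 fun i => ?_
  rw [le_div_iff₀ hp, mul_comm]
  exact h1 i

lemma summable_wg : Summable wg := summable_K3

open Classical in
lemma tail_zero {b : K → ℝ} (hb : Summable b) :
    Tendsto (fun R : ℕ => ∑' l, if l ∈ bb R then 0 else b l) atTop (𝓝 0) := by
  have h1 : ∀ R : ℕ, ∑' l, (if l ∈ bb R then 0 else b l) = (∑' l, b l) - ∑ l ∈ bb R, b l := by
    intro R
    have h2 : HasSum (fun l => if l ∈ bb R then b l else 0) (∑ l ∈ bb R, b l) := by
      have h3 : HasSum (fun l => if l ∈ bb R then b l else 0)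
          (∑ l ∈ bb R, if l ∈ bb R then b l else 0) :=
        hasSum_sum_of_ne_finset_zero fun l hl => if_neg hl
      rwa [Finset.sum_congr rfl fun l hl => if_pos hl] at h3
    have h3 := (hb.hasSum.sub h2).tsum_eq
    rw [← h3]
    refine tsum_congr fun l => ?_
    split_ifs <;> simp
  simp only [h1]
  have h4 : Tendsto bb atTop atTop := by
    apply tendsto_atTop_finset_of_monotone
    · intro a b hab k hk
      rw [mem_bb] at hk ⊢
      exact hk.trans (by exact_mod_cast hab)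
    · intro k
      exact ⟨H459R3.NS.N k, mem_bb.2 le_rfl⟩
  have h5 := tendsto_const_nhds (x := ∑' l, b l) |>.sub (hb.hasSum.comp h4)
  rw [sub_self] at h5
  exact h5

lemma continuousOn_cf (h : IsSol ν T u p) (k : K) : ContinuousOn (fun s => cf (u s) k) (Ico 0 T) :=
  continuousOn_pi.2 fun i => (sf_u h i).continuousOn_fr k

lemma continuousOn_en (h : IsSol ν T u p) (k : K) :
    ContinuousOn (fun s => en (cf (u s) k)) (Ico 0 T) := by
  unfold en
  exact continuousOn_finsetSum _ fun i _ =>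
    ((continuousOn_pi.1 (continuousOn_cf h k) i).norm.pow 2)

lemma continuousOn_sum (h : IsSol ν T u p) (B : Finset K) (w : K → ℝ) :
    ContinuousOn (fun s => ∑ k ∈ B, w k * en (cf (u s) k)) (Ico 0 T) :=
  continuousOn_finsetSum _ fun k _ => continuousOn_const.mul (continuousOn_en h k)

lemma continuousOn_strain (h : IsSol ν T u p) (m : ℕ) :
    ContinuousOn (fun s => strain m (u s)) (Ico 0 T) := by
  unfold strain
  exact continuousOn_finsetSum _ fun k _ => continuousOn_const.mul (continuousOn_en h k).sqrt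

/-- the truncated energy balance -/
lemma der_sum (h : IsSol ν T u p) (B : Finset K) (w : K → ℝ) {t : ℝ} (ht : t ∈ Ioo 0 T) :
    HasDerivAt (fun s => ∑ k ∈ B, w k * en (cf (u s) k))
      (-(2 * ∑ k ∈ B, w k * ((4 * Real.pi ^ 2 * ν * Pool.Agent.H356R3.NS.sq k)
        * en (cf (u t) k))) + ∑ k ∈ B, w k * fl (cf (u t)) k) t := by
  have h1 := HasDerivAt.fun_sum (u := B) fun k _ => (hasDerivAt_en h ht k).const_mul (w k)
  refine h1.congr_deriv ?_
  rw [Finset.mul_sum, ← Finset.sum_neg_distrib, ← Finset.sum_add_distrib]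
  exact Finset.sum_congr rfl fun k _ => by ring

/-- the error of the truncation tends to zero, uniformly on compact time intervals -/
lemma err_small (h : IsSol ν T u p) {b : ℝ} (hb : b < T) {w : K → ℝ} {C : ℝ} {q : ℕ}
    (hw : ∀ k, |w k| ≤ C * (1 + nn k) ^ q) {η : ℝ} (hη : 0 < η) :
    ∃ R0 : ℕ, ∀ R, R0 ≤ R → ∀ t ∈ Icc 0 b, t < T →
      |∑ k ∈ bb R, w k * fl (cf (u t)) k - ∑ k ∈ bb R, w k *
        (2 * (ipc (Bf (tr (bb R) (cf (u t))) (tr (bb R) (cf (u t))) k) (tr (bb R) (cf (u t)) k)).re)|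
        ≤ η := by
  classical
  obtain ⟨C0, hC0, h0⟩ := decay h hb 0
  obtain ⟨C1, hC1, h1⟩ := decay h hb (q + 1)
  have hCC : 0 ≤ C := by
    have := (abs_nonneg _).trans (hw 0)
    rw [nn_eq_zero.2 rfl] at this
    simpa using this
  set M : ℝ := C * (C1 * ∑' k, wg k) with hM
  have hWs : 0 ≤ ∑' k, wg k := tsum_nonneg wg_nonneg
  have hM0 : 0 ≤ M := by positivity
  have hpi := Real.pi_pos
  have hbs : Summable fun k => C0 * wg k := summable_wg.mul_left _
  set A : ℝ := 72 * Real.pi * M * (∑' l, C0 * wg l) + 1 with hA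
  have hA0 : 0 < A := by
    have : 0 ≤ ∑' l, C0 * wg l := tsum_nonneg fun l => mul_nonneg hC0 (wg_nonneg l)
    positivity
  have htl := (tail_zero hbs).eventually (gt_mem_nhds (show 0 < η / A by positivity))
  obtain ⟨R0, hR0⟩ := eventually_atTop.1 htl
  refine ⟨R0, fun R hR t ht htT => ?_⟩
  have hcb : ∀ k, ‖cf (u t) k‖ ≤ C0 * wg k := fun k => by simpa using h0 t ht k
  have hM' : ∑ k ∈ bb R, |w k| * (nn k * ‖cf (u t) k‖) ≤ M := by
    have h2 : ∀ k ∈ bb R, |w k| * (nn k * ‖cf (u t) k‖) ≤ C * (C1 * wg k) := by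
      intro k _
      have h3 := h1 t ht k
      have hn := nn_nonneg k
      calc |w k| * (nn k * ‖cf (u t) k‖)
          ≤ (C * (1 + nn k) ^ q) * ((1 + nn k) * ‖cf (u t) k‖) := by
            apply mul_le_mul (hw k) _ (by positivity) (by positivity)
            gcongr
            linarith
        _ = C * ((1 + nn k) ^ (q + 1) * ‖cf (u t) k‖) := by rw [pow_succ]; ring
        _ ≤ _ := mul_le_mul_of_nonneg_left h3 hCC
    refine (Finset.sum_le_sum h2).trans ?_
    rw [← Finset.mul_sum, ← Finset.mul_sum, hM]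
    gcongr
    exact summable_wg.sum_le_tsum _ fun k _ => wg_nonneg k
  have hI : t ∈ Ico 0 T := ⟨ht.1, htT⟩
  refine (fl_sum_err (cf_div h hI) hbs hcb (bb R) hM').trans ?_
  have h4 := (hR0 R hR).le
  have h5 : 0 ≤ ∑' l, (if l ∈ bb R then 0 else C0 * wg l) :=
    tsum_nonneg fun l => by
      split_ifs
      · exact le_rfl
      · exact mul_nonneg hC0 (wg_nonneg l)
  have h6 : 0 ≤ ∑' l, C0 * wg l := tsum_nonneg fun l => mul_nonneg hC0 (wg_nonneg l)
  calc 72 * Real.pi * M * ((∑' l, if l ∈ bb R then 0 else C0 * wg l) * ∑' l, C0 * wg l)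
      = (72 * Real.pi * M * ∑' l, C0 * wg l) * (∑' l, if l ∈ bb R then 0 else C0 * wg l) := by ring
    _ ≤ A * (η / A) := by
        apply mul_le_mul _ h4 h5 hA0.le
        rw [hA]; linarith
    _ = η := by field_simp

end

end Pool.Agent.K1H29.AC
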