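import Pool.Agent.K1H29.AC.Coef

/-!
# Truncation of the energy transfer
-/

open Set MeasureTheory Filter Topology ComplexConjugate

namespace Pool.Agent.K1H29.AC

open Pool.Agent.H356R3.NS (K C3 Sym Bf bt dt)
open Pool.Agent.K1H29.SH

open Classical in
/-- truncation -/
noncomputable def tr (B : Finset K) (c : K → C3) (k : K) : C3 := if k ∈ B then c k else 0

lemma tr_mem {B : Finset K} {c : K → C3} {k : K} (h : k ∈ B) : tr B c k = c k := if_pos h

lemma tr_not {B : Finset K} {c : K → C3} {k : K} (h : k ∉ B) : tr B c k = 0 := if_neg h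

lemma dt_zero (k : K) : dt k (0 : C3) = 0 := by unfold Pool.Agent.H356R3.NS.dt; simp

lemma tr_sym {B : Finset K} (hB : ∀ k ∈ B, -k ∈ B) {c : K → C3} (hc : Sym c) : Sym (tr B c) := by
  intro k i
  by_cases h : k ∈ B
  · rw [tr_mem h, tr_mem (hB k h)]; exact hc k i
  · have h' : -k ∉ B := fun h1 => h (by simpa using hB _ h1)
    rw [tr_not h, tr_not h']; simp

lemma tr_div {B : Finset K} {c : K → C3} (hd : ∀ k, dt k (c k) = 0) (k : K) :
    dt k (tr B c k) = 0 := by
  by_cases h : k ∈ B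
  · rw [tr_mem h]; exact hd k
  · rw [tr_not h]; exact dt_zero k

open Classical in
lemma fl_err {c : K → C3} (hd : ∀ k, dt k (c k) = 0) {b : K → ℝ} (hb : Summable b)
    (hcb : ∀ k, ‖c k‖ ≤ b k) (B : Finset K) {k : K} (hk : k ∈ B) :
    |fl c k - 2 * (ipc (Bf (tr B c) (tr B c) k) (tr B c k)).re|
      ≤ 72 * Real.pi * (nn k * ‖c k‖) * ((∑' l, if l ∈ B then 0 else b l) * ∑' l, b l) := by
  have hb0 : ∀ l, 0 ≤ b l := fun l => (norm_nonneg _).trans (hcb l)
  set e : K → ℝ := fun l => if l ∈ B then 0 else b l with he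
  have he0 : ∀ l, 0 ≤ e l := fun l => by simp only [he]; split_ifs <;> simp [hb0 l]
  have heb : ∀ l, e l ≤ b l := fun l => by simp only [he]; split_ifs <;> simp [hb0 l]
  have hes : Summable e := hb.of_nonneg_of_le he0 heb
  set Sb := ∑' l, b l with hSb
  set Se := ∑' l, e l with hSe
  have hbS : ∀ l, b l ≤ Sb := fun l => hb.le_tsum l fun j _ => hb0 j
  have heS : ∀ l, e l ≤ Se := fun l => hes.le_tsum l fun j _ => he0 j
  have hSb0 : 0 ≤ Sb := tsum_nonneg hb0
  have hSe0 : 0 ≤ Se := tsum_nonneg he0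
  set f : K → ℂ := fun l => dt k (c l) * ipc (c (k - l)) (c k) with hf
  set g : K → ℂ := fun l => dt k (tr B c l) * ipc (tr B c (k - l)) (c k) with hg
  set A : ℝ := 9 * (nn k * ‖c k‖) with hA
  have hA0 : 0 ≤ A := by have := nn_nonneg k; positivity
  have hfn : ∀ l, ‖f l‖ ≤ A * (‖c l‖ * ‖c (k - l)‖) := by
    intro l
    simp only [hf]
    rw [norm_mul]
    calc ‖dt k (c l)‖ * ‖ipc (c (k - l)) (c k)‖
        ≤ (3 * nn k * ‖c l‖) * (3 * (‖c (k - l)‖ * ‖c k‖)) :=
          mul_le_mul (norm_dt_le _ _) (norm_ipc_le _ _) (norm_nonneg _)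
            (by have := nn_nonneg k; positivity)
      _ = _ := by rw [hA]; ring
  have hfs : Summable f := by
    refine Summable.of_norm_bounded (g := fun l => A * (b l * Sb)) ((hb.mul_right _).mul_left _)
      fun l => (hfn l).trans (mul_le_mul_of_nonneg_left ?_ hA0)
    exact mul_le_mul (hcb l) ((hcb _).trans (hbS _)) (norm_nonneg _) (hb0 _)
  have hipc0 : ∀ w : C3, ipc 0 w = 0 := fun w => by unfold ipc; simp
  have hg0 : ∀ l, l ∉ B → g l = 0 := fun l hl => by
    simp only [hg]; rw [tr_not hl, dt_zero, zero_mul]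
  have hgs : HasSum g (∑ l ∈ B, g l) := hasSum_sum_of_ne_finset_zero hg0
  have hfg : ∀ l, ‖f l - g l‖ ≤ A * (e l * Sb + b l * Se) := by
    intro l
    by_cases h1 : l ∈ B
    · by_cases h2 : k - l ∈ B
      · have : f l - g l = 0 := by
          simp only [hf, hg]; rw [tr_mem h1, tr_mem h2, sub_self]
        rw [this, norm_zero]
        have := he0 l
        have := hb0 l
        positivity
      · have h3 : g l = 0 := by simp only [hg]; rw [tr_not h2, hipc0, mul_zero]
        rw [h3, sub_zero]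
        refine (hfn l).trans (mul_le_mul_of_nonneg_left ?_ hA0)
        have h4 : e (k - l) = b (k - l) := by simp only [he]; rw [if_neg h2]
        have h5 : ‖c (k - l)‖ ≤ Se := (hcb _).trans (by rw [← h4]; exact heS _)
        have h6 := mul_le_mul (hcb l) h5 (norm_nonneg _) (hb0 l)
        have := mul_nonneg (he0 l) hSb0
        linarith
    · rw [hg0 l h1, sub_zero]
      refine (hfn l).trans (mul_le_mul_of_nonneg_left ?_ hA0)
      have h4 : e l = b l := by simp only [he]; rw [if_neg h1]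
      have h6 := mul_le_mul (hcb l) ((hcb (k - l)).trans (hbS _)) (norm_nonneg _) (hb0 l)
      have := mul_nonneg (hb0 l) hSe0
      rw [h4]
      linarith
  have hmaj : Summable fun l => A * (e l * Sb + b l * Se) :=
    ((hes.mul_right _).add (hb.mul_right _)).mul_left _
  have hX : ‖(∑' l, f l) - ∑ l ∈ B, g l‖ ≤ 2 * A * (Se * Sb) := by
    rw [← hgs.tsum_eq, ← hfs.tsum_sub hgs.summable]
    have hn : Summable fun l => ‖f l - g l‖ :=
      hmaj.of_nonneg_of_le (fun _ => norm_nonneg _) hfg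
    refine (norm_tsum_le_tsum_norm hn).trans ((hn.tsum_le_tsum hfg hmaj).trans (le_of_eq ?_))
    rw [tsum_mul_left, (hes.mul_right _).tsum_add (hb.mul_right _), tsum_mul_right, tsum_mul_right]
    ring
  have h1 : ipc (Bf (tr B c) (tr B c) k) (tr B c k)
      = -(2 * Real.pi * Complex.I) * ∑ l ∈ B, g l := by
    rw [ipc_Bf (fun k hk => tr_not hk) (tr_div hd k)]
    rw [tr_mem hk]
  rw [h1]
  unfold fl
  rw [← mul_sub, ← Complex.sub_re, ← mul_sub, abs_mul, abs_of_pos (by norm_num : (0 : ℝ) < 2)]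
  calc 2 * |(-(2 * Real.pi * Complex.I) * ((∑' l, f l) - ∑ l ∈ B, g l)).re|
      ≤ 2 * ‖-(2 * Real.pi * Complex.I) * ((∑' l, f l) - ∑ l ∈ B, g l)‖ :=
        mul_le_mul_of_nonneg_left (Complex.abs_re_le_norm _) (by norm_num)
    _ = 4 * Real.pi * ‖(∑' l, f l) - ∑ l ∈ B, g l‖ := by
        rw [norm_mul, norm_neg, norm_mul, norm_mul, Complex.norm_I, Complex.norm_ofNat,
          Complex.norm_real, Real.norm_eq_abs, abs_of_pos Real.pi_pos]
        ring
    _ ≤ 4 * Real.pi * (2 * A * (Se * Sb)) :=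
        mul_le_mul_of_nonneg_left hX (by have := Real.pi_pos; positivity)
    _ = _ := by rw [hA]; ring

open Classical in
lemma fl_sum_err {c : K → C3} (hd : ∀ k, dt k (c k) = 0) {b : K → ℝ} (hb : Summable b)
    (hcb : ∀ k, ‖c k‖ ≤ b k) (B : Finset K) {w : K → ℝ} {M : ℝ}
    (hM : ∑ k ∈ B, |w k| * (nn k * ‖c k‖) ≤ M) :
    |∑ k ∈ B, w k * fl c k
        - ∑ k ∈ B, w k * (2 * (ipc (Bf (tr B c) (tr B c) k) (tr B c k)).re)|
      ≤ 72 * Real.pi * M * ((∑' l, if l ∈ B then 0 else b l) * ∑' l, b l) := by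
  have hb0 : ∀ l, 0 ≤ b l := fun l => (norm_nonneg _).trans (hcb l)
  have hSb0 : 0 ≤ ∑' l, b l := tsum_nonneg hb0
  have hSe0 : 0 ≤ ∑' l, (if l ∈ B then 0 else b l) :=
    tsum_nonneg fun l => by split_ifs <;> simp [hb0 l]
  have hpi := Real.pi_pos
  rw [← Finset.sum_sub_distrib]
  refine (Finset.abs_sum_le_sum_abs _ _).trans ?_
  have h1 : ∀ k ∈ B, |w k * fl c k - w k * (2 * (ipc (Bf (tr B c) (tr B c) k) (tr B c k)).re)|
      ≤ (|w k| * (nn k * ‖c k‖)) *
        (72 * Real.pi * ((∑' l, if l ∈ B then 0 else b l) * ∑' l, b l)) := by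
    intro k hk
    rw [← mul_sub, abs_mul]
    refine (mul_le_mul_of_nonneg_left (fl_err hd hb hcb B hk) (abs_nonneg _)).trans (le_of_eq ?_)
    ring
  refine (Finset.sum_le_sum h1).trans ?_
  rw [← Finset.sum_mul]
  calc _ ≤ M * (72 * Real.pi * ((∑' l, if l ∈ B then 0 else b l) * ∑' l, b l)) :=
        mul_le_mul_of_nonneg_right hM (by positivity)
    _ = _ := by ring

end Pool.Agent.K1H29.AC
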