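import Mathlib

/-!
# Weighted averages in time
-/

open Set MeasureTheory Filter Topology

namespace Pool.Agent.K1H29.AC

/-- `∫_0^t exp (-a (t - s)) g(s) ds` -/
noncomputable def Psi (a : ℝ) (g : ℝ → ℝ) (t : ℝ) : ℝ :=
  ∫ s in (0 : ℝ)..t, Real.exp (-(a * (t - s))) * g s

variable {a : ℝ} {g : ℝ → ℝ} {T : ℝ}

lemma Psi_eq (t : ℝ) :
    Psi a g t = Real.exp (-(a * t)) * ∫ s in (0 : ℝ)..t, Real.exp (a * s) * g s := by
  unfold Psi
  rw [← intervalIntegral.integral_const_mul]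
  congr 1
  funext s
  rw [← mul_assoc, ← Real.exp_add]
  congr 2
  ring

lemma Psi_zero : Psi a g 0 = 0 := by unfold Psi; simp

lemma contG (hg : ContinuousOn g (Ico 0 T)) :
    ContinuousOn (fun s => Real.exp (a * s) * g s) (Ico 0 T) :=
  ContinuousOn.mul (by fun_prop) hg

lemma Psi_hasDerivAt (hg : ContinuousOn g (Ico 0 T)) {t : ℝ} (ht : t ∈ Ioo 0 T) :
    HasDerivAt (Psi a g) (g t - a * Psi a g t) t := by
  have hcont := contG (a := a) hg
  have hsub : uIcc 0 t ⊆ Ico 0 T := by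
    rw [uIcc_of_le ht.1.le]; exact fun s hs => ⟨hs.1, hs.2.trans_lt ht.2⟩
  have hint : IntervalIntegrable (fun s => Real.exp (a * s) * g s) volume 0 t :=
    (hcont.mono hsub).intervalIntegrable
  have hcat : ContinuousAt (fun s => Real.exp (a * s) * g s) t :=
    (hcont t ⟨ht.1.le, ht.2⟩).continuousAt (Ico_mem_nhds ht.1 ht.2)
  have hmeas : StronglyMeasurableAtFilter (fun s => Real.exp (a * s) * g s) (𝓝 t) volume :=
    (hcont.mono Ioo_subset_Ico_self).stronglyMeasurableAtFilter isOpen_Ioo t ht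
  have h1 := intervalIntegral.integral_hasDerivAt_right hint hmeas hcat
  have h2 : HasDerivAt (fun t => Real.exp (-(a * t))) (-a * Real.exp (-(a * t))) t := by
    have : HasDerivAt (fun t : ℝ => -(a * t)) (-a) t := by
      have h : HasDerivAt (fun t : ℝ => a * t) a t := by simpa using (hasDerivAt_id t).const_mul a
      exact h.fun_neg
    refine this.exp.congr_deriv ?_
    ring
  have h3 := h2.mul h1
  have e : Psi a g = fun t => Real.exp (-(a * t)) * ∫ s in (0 : ℝ)..t, Real.exp (a * s) * g s :=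
    funext fun t => Psi_eq t
  rw [e]
  refine h3.congr_deriv ?_
  have e2 : Real.exp (-(a * t)) * (Real.exp (a * t) * g t) = g t := by
    rw [← mul_assoc, ← Real.exp_add]; simp
  rw [e2]
  ring

lemma Psi_continuousOn (hg : ContinuousOn g (Ico 0 T)) : ContinuousOn (Psi a g) (Ico 0 T) := by
  intro t ht
  obtain ⟨b, hb1, hb2⟩ := exists_between ht.2
  have hb0 : 0 ≤ b := ht.1.trans hb1.le
  have hcont := contG (a := a) hg
  have hsub : uIcc 0 b ⊆ Ico 0 T := by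
    rw [uIcc_of_le hb0]; exact fun s hs => ⟨hs.1, hs.2.trans_lt hb2⟩
  have hint : IntegrableOn (fun s => Real.exp (a * s) * g s) (uIcc 0 b) volume :=
    (hcont.mono hsub).integrableOn_compact isCompact_uIcc
  have h1 := intervalIntegral.continuousOn_primitive_interval hint
  have h2 : ContinuousOn (Psi a g) (uIcc 0 b) := by
    have e : Psi a g = fun t => Real.exp (-(a * t)) * ∫ s in (0 : ℝ)..t, Real.exp (a * s) * g s :=
      funext fun t => Psi_eq t
    rw [e]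
    exact ContinuousOn.mul (by fun_prop) h1
  rw [uIcc_of_le hb0] at h2
  refine (h2 t ⟨ht.1, hb1.le⟩).mono_of_mem_nhdsWithin ?_
  rw [mem_nhdsWithin_iff_exists_mem_nhds_inter]
  exact ⟨Iio b, Iio_mem_nhds hb1, fun s hs => ⟨hs.2.1, hs.1.le⟩⟩

lemma Psi_nonneg (hg0 : ∀ s ∈ Ico 0 T, 0 ≤ g s) {t : ℝ} (ht : t ∈ Ico 0 T) : 0 ≤ Psi a g t := by
  unfold Psi
  refine intervalIntegral.integral_nonneg ht.1 fun s hs => ?_
  exact mul_nonneg (Real.exp_pos _).le (hg0 s ⟨hs.1, hs.2.trans_lt ht.2⟩)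

/-- a bound is not crossed -/
lemma nocross' {f D : ℝ → ℝ} {T R : ℝ} (hc : ContinuousOn f (Ico 0 T))
    (hd : ∀ t ∈ Ioo 0 T, HasDerivAt f (D t) t) (h0 : f 0 < R)
    (hD : ∀ t ∈ Ioo 0 T, f t = R → D t < 0) : ∀ t ∈ Ico 0 T, f t ≤ R := by
  intro t ht
  rcases eq_or_lt_of_le ht.1 with h | h
  · rw [← h]; exact h0.le
  have h1 : ∀ᶠ s in 𝓝[Ico 0 T] 0, f s < R :=
    (hc 0 ⟨le_rfl, ht.1.trans_lt ht.2⟩).eventually (gt_mem_nhds h0)
  have h2 : ∀ᶠ s in 𝓝[>] (0 : ℝ), f s < R := by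
    refine h1.filter_mono ?_
    rw [nhdsWithin_le_iff]
    exact Filter.mem_of_superset (Ioo_mem_nhdsGT (ht.1.trans_lt ht.2)) Ioo_subset_Ico_self
  obtain ⟨s0, hs0, hs1⟩ := (h2.and (Ioo_mem_nhdsGT h)).exists
  have hsub : Icc s0 t ⊆ Ico 0 T := fun s hs => ⟨hs1.1.le.trans hs.1, hs.2.trans_lt ht.2⟩
  have hmem : ∀ s ∈ Ico s0 t, s ∈ Ioo 0 T := fun s hs =>
    ⟨hs1.1.trans_le hs.1, hs.2.trans ht.2⟩
  have key := image_le_of_deriv_right_lt_deriv_boundary (f := f) (f' := D) (a := s0) (b := t)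
    (hc.mono hsub) (fun s hs => (hd s (hmem s hs)).hasDerivWithinAt) (B := fun _ => R)
    (B' := fun _ => 0) hs0.le (fun s => hasDerivAt_const s R)
    (fun s hs he => hD s (hmem s hs) he)
  exact key (right_mem_Icc.2 hs1.2.le)

end Pool.Agent.K1H29.AC
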