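import Pool.Agent.K1H29.AC.Dec
import Pool.Agent.K1H29.AC.Psi

/-!
# One inactive scale
-/

open Set MeasureTheory Filter Topology ComplexConjugate

namespace Pool.Agent.K1H29.AC

open Pool.Agent.H356R3.NS (K C3 Sym Bf bt dt nk)
open Pool.Agent.K1H29.SH

lemma Fe_tr (B : Finset K) (n : ℕ) (c : K → C3) : Fe B n (tr B c) = Fe B n c := by
  unfold Fe
  exact Finset.sum_congr rfl fun k hk => by rw [tr_mem hk]

lemma We_tr (σ : ℕ) (B : Finset K) (n : ℕ) (c : K → C3) : We σ B n (tr B c) = We σ B n c := by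
  unfold We
  exact Finset.sum_congr rfl fun k hk => by rw [tr_mem hk]

/-- the flux through the scale `n` -/
lemma flux_W' {B : Finset K} (hB : ∀ k ∈ B, -k ∈ B) {c : K → C3} (hsym : Sym c)
    (hdiv : ∀ k, dt k (c k) = 0) (n : ℕ) :
    |∑ k ∈ B, W (2 ^ n) (nn k) * (2 * (ipc (Bf (tr B c) (tr B c) k) (tr B c k)).re)|
      ≤ 54 * Real.pi * (2 * ∑ k ∈ B.filter (fun k => nn k < 2 ^ (n + 1)), nn k * ‖c k‖)
        * Fe B (n - 2) c := by
  have hN : (0 : ℝ) < 2 ^ n := by positivity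
  have h1 := flux hB (fun k hk => tr_not hk) (tr_sym hB hsym) (tr_div hdiv)
    (w := fun k => W (2 ^ n) (nn k)) (φ := fun k => Ph (2 ^ n) (nn k))
    (ψ := fun k => Ps (2 ^ n) (nn k)) (fun k => by simp only [nn_neg])
    (fun k => Ph_nonneg (nn_nonneg k)) (fun k l => by
      refine triW hN (nn_nonneg _) (nn_nonneg _) ?_ ?_
      · have := nn_sub_le k l; linarith
      · exact nn_sub_le' k l)
  refine h1.trans ?_
  have h3 : ∑ k ∈ B, Ph (2 ^ n) (nn k) * ‖tr B c k‖
      = 2 * ∑ k ∈ B.filter (fun k => nn k < 2 ^ (n + 1)), nn k * ‖c k‖ := by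
    rw [Finset.sum_filter, Finset.mul_sum]
    refine Finset.sum_congr rfl fun k hk => ?_
    unfold Ph
    rw [show (2 : ℝ) * 2 ^ n = 2 ^ (n + 1) by rw [pow_succ]; ring, tr_mem hk]
    split_ifs
    · ring
    · ring
  have h4 : ∑ k ∈ B, (Ps (2 ^ n) (nn k) * ‖tr B c k‖) ^ 2 ≤ Fe B (n - 2) c := by
    rw [← Fe_tr]
    refine le_trans ?_ (high_le_Fe B (n - 2) (tr B c))
    rw [Finset.sum_filter]
    refine Finset.sum_le_sum fun k _ => ?_
    unfold Ps
    by_cases h : (2 : ℝ) ^ n ≤ 4 * nn k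
    · rw [if_pos h, if_pos (quarter h), one_mul]
    · rw [if_neg h]
      split_ifs
      · simp
      · simp
  rw [h3]
  apply mul_le_mul_of_nonneg_left h4
  have hpi := Real.pi_pos
  have : 0 ≤ ∑ k ∈ B.filter (fun k => nn k < 2 ^ (n + 1)), nn k * ‖c k‖ :=
    Finset.sum_nonneg fun k _ => mul_nonneg (nn_nonneg k) (norm_nonneg _)
  positivity

/-- the high frequencies -/
lemma high_sum (B : Finset K) (n : ℕ) (u : K → C3) :
    ∑ k ∈ B.filter (fun k => 2 ^ (n + 1) ≤ nn k), nn k * ‖u k‖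
      ≤ 69 * (lam ^ n * √(Fe B n u + We 3 B n u)) := by
  classical
  set G := Fe B n u + We 3 B n u with hG
  have hG0 : 0 ≤ G := add_nonneg (Fe_nonneg _ _ _) (We_nonneg _ _ _ _)
  -- all frequencies are bounded
  obtain ⟨J, hJn, hJ⟩ : ∃ J, n ≤ J ∧ ∀ k ∈ B, nn k < 2 ^ (J + 1) := by
    obtain ⟨R, hR⟩ : ∃ R : ℕ, ∀ k ∈ B, H459R3.NS.N k ≤ R :=
      ⟨B.sup H459R3.NS.N, fun k hk => Finset.le_sup hk⟩
    refine ⟨n + R, by omega, fun k hk => ?_⟩
    have h1 := hR k hk
    have h2 : R < 2 ^ (n + R + 1) := by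
      calc R < 2 ^ R := Nat.lt_two_pow_self
        _ ≤ 2 ^ (n + R + 1) := Nat.pow_le_pow_right (by norm_num) (by omega)
    have h3 : H459R3.NS.N k < 2 ^ (n + R + 1) := by omega
    unfold nn
    exact_mod_cast h3
  set f : K → ℝ := fun k => if 2 ^ (n + 1) ≤ nn k then nn k * ‖u k‖ else 0 with hf
  have hf0 : ∀ k, 0 ≤ f k := fun k => by
    simp only [hf]; split_ifs
    · exact mul_nonneg (nn_nonneg k) (norm_nonneg _)
    · exact le_rfl
  have hf1 : ∀ k, f k ≤ nn k * ‖u k‖ := fun k => by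
    simp only [hf]; split_ifs
    · exact le_rfl
    · exact mul_nonneg (nn_nonneg k) (norm_nonneg _)
  have h1 : ∑ k ∈ B, f k ≤ ∑ j ∈ Finset.range (J + 1), ∑ k ∈ sh B j, f k := by
    have := dy_sum B (f := f) hf0 (by simp [hf, nn_eq_zero.2 rfl]) J
    rwa [Finset.filter_true_of_mem hJ] at this
  rw [Finset.sum_filter]
  refine h1.trans ?_
  have hsplit : J + 1 = (n + 1) + (J - n) := by omega
  rw [hsplit, Finset.sum_range_add]
  have hz : ∑ j ∈ Finset.range (n + 1), ∑ k ∈ sh B j, f k = 0 := by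
    refine Finset.sum_eq_zero fun j hj => Finset.sum_eq_zero fun k hk => ?_
    unfold sh at hk
    rw [Finset.mem_filter] at hk
    have h2 := hk.2.2
    have h3 : (2 : ℝ) ^ (j + 1) ≤ 2 ^ (n + 1) :=
      pow_le_pow_right₀ (by norm_num) (by have := Finset.mem_range.1 hj; omega)
    simp only [hf]
    rw [if_neg (not_le.2 (h2.trans_le h3))]
  rw [hz, zero_add]
  have h2 : ∀ i ∈ Finset.range (J - n), ∑ k ∈ sh B (n + 1 + i), f k
      ≤ 23 * (lam ^ n * √G) * (3 / 4) ^ (i + 1) := by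
    intro i _
    refine (Finset.sum_le_sum fun k _ => hf1 k).trans ?_
    have h3 : ∑ k ∈ sh B (n + 1 + i), ‖u k‖ ^ 2 ≤ G / 64 ^ (i + 1) := by
      rw [le_div_iff₀ (by positivity), Finset.sum_mul, hG]
      unfold Fe We
      rw [← Finset.sum_add_distrib]
      refine le_trans ?_ (Finset.sum_le_sum_of_subset_of_nonneg (s := sh B (n + 1 + i))
        (Finset.filter_subset _ _) fun k _ _ => add_nonneg
          (mul_nonneg (W_nonneg _ _) (en_nonneg _)) (mul_nonneg (rh_nonneg _ _ _) (en_nonneg _)))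
      refine Finset.sum_le_sum fun k hk => ?_
      unfold sh at hk
      rw [Finset.mem_filter] at hk
      have hk1 := hk.2.1
      have e1 : (2 : ℝ) ^ n ≤ nn k := by
        refine le_trans ?_ hk1
        exact pow_le_pow_right₀ (by norm_num) (by omega)
      rw [W_eq_one (by positivity) e1, ← add_mul, mul_comm]
      apply mul_le_mul _ (norm_sq_le_en _) (by positivity)
        (by have := rh_nonneg 3 (2 ^ n) (nn k); linarith)
      have e2 : 1 + rh 3 (2 ^ n) (nn k) = th 3 (2 ^ n) (nn k) ^ 2 := by unfold rh; ring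
      rw [e2]
      have e3 : (2 : ℝ) ^ (i + 1) ≤ max 1 (nn k / 2 ^ n) := by
        apply le_max_of_le_right
        rw [le_div_iff₀ (by positivity), ← pow_add]
        refine le_trans (le_of_eq ?_) hk1
        congr 1; omega
      unfold th
      rw [← pow_mul]
      calc (64 : ℝ) ^ (i + 1) = (2 ^ (i + 1)) ^ (3 * 2) := by
            rw [← pow_mul, mul_comm (i + 1), pow_mul]; norm_num
        _ ≤ _ := pow_le_pow_left₀ (by positivity) e3 _
    refine (shell_le h3).trans ?_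
    rw [mul_assoc]
    apply mul_le_mul_of_nonneg_left _ (by norm_num)
    have e4 : √(G / 64 ^ (i + 1)) = √G / 8 ^ (i + 1) := by
      rw [Real.sqrt_div hG0]
      congr 1
      rw [show (64 : ℝ) ^ (i + 1) = (8 ^ (i + 1)) ^ 2 by rw [← pow_mul, mul_comm, pow_mul]; norm_num]
      exact Real.sqrt_sq (by positivity)
    rw [e4]
    have e5 : lam ≤ 6 := by
      unfold lam
      rw [Real.sqrt_le_left (by norm_num)]; norm_num
    have e6 : lam ^ (i + 1) / 8 ^ (i + 1) ≤ (3 / 4) ^ (i + 1) := by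
      rw [← div_pow]
      exact pow_le_pow_left₀ (by have := lam_pos; positivity) (by linarith) _
    calc lam ^ (n + 1 + i) * (√G / 8 ^ (i + 1))
        = (lam ^ n * √G) * (lam ^ (i + 1) / 8 ^ (i + 1)) := by
          rw [show n + 1 + i = n + (i + 1) by omega, pow_add]; ring
      _ ≤ _ := mul_le_mul_of_nonneg_left e6 (by have := lam_pos; positivity)
  refine (Finset.sum_le_sum h2).trans ?_
  rw [← Finset.mul_sum]
  have h5 : ∀ r : ℕ, ∑ i ∈ Finset.range r, ((3 : ℝ) / 4) ^ (i + 1) ≤ 3 * (1 - (3 / 4) ^ r) := by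
    intro r
    induction r with
    | zero => simp
    | succ r ih =>
      rw [Finset.sum_range_succ]
      have : ((3 : ℝ) / 4) ^ (r + 1) = 3 / 4 * (3 / 4) ^ r := by ring
      linarith
  have h6 := h5 (J - n)
  have h7 : (0 : ℝ) ≤ (3 / 4) ^ (J - n) := by positivity
  calc 23 * (lam ^ n * √G) * ∑ i ∈ Finset.range (J - n), ((3 : ℝ) / 4) ^ (i + 1)
      ≤ 23 * (lam ^ n * √G) * 3 :=
        mul_le_mul_of_nonneg_left (by linarith) (by have := lam_pos; positivity)
    _ = _ := by ring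

lemma split_sum (B : Finset K) (n : ℕ) (u : K → C3) :
    ∑ k ∈ B, nn k * ‖u k‖ = ∑ k ∈ B.filter (fun k => nn k < 2 ^ (n + 1)), nn k * ‖u k‖
      + ∑ k ∈ B.filter (fun k => 2 ^ (n + 1) ≤ nn k), nn k * ‖u k‖ := by
  classical
  rw [← Finset.sum_filter_add_sum_filter_not B (fun k => nn k < 2 ^ (n + 1))]
  simp only [not_lt]

/-! ### one inactive scale -/

section

open H459R3.NS Pool.Agent.K1H60.HS

variable {ν T : ℝ} {u : ℝ → V → V} {p : ℝ → V → ℝ}

lemma Fe_mono {R R' : ℕ} (h : R ≤ R') (n : ℕ) (c : K → C3) : Fe (bb R) n c ≤ Fe (bb R') n c := by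
  unfold Fe
  refine Finset.sum_le_sum_of_subset_of_nonneg (fun k hk => ?_) fun k _ _ =>
    mul_nonneg (SH.W_nonneg _ _) (en_nonneg _)
  rw [mem_bb] at hk ⊢
  exact hk.trans (by exact_mod_cast h)

lemma We_mono {R R' : ℕ} (h : R ≤ R') (n : ℕ) (c : K → C3) : We 3 (bb R) n c ≤ We 3 (bb R') n c := by
  unfold We
  refine Finset.sum_le_sum_of_subset_of_nonneg (fun k hk => ?_) fun k _ _ =>
    mul_nonneg (rh_nonneg _ _ _) (en_nonneg _)
  rw [mem_bb] at hk ⊢
  exact hk.trans (by exact_mod_cast h)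

lemma sq_lower {k : K} {N : ℝ} (hN : 0 ≤ N) (h : N ≤ nn k) :
    N ^ 2 ≤ Pool.Agent.H356R3.NS.sq k := by
  have h1 := nn_le_nk k
  have h2 : N ≤ nk k := h.trans h1
  have h3 := pow_le_pow_left₀ hN h2 2
  rwa [Pool.Agent.H356R3.NS.nk_sq] at h3

/-- One inactive scale reduces the energy of the small scales by a factor. -/
theorem step (hν : 0 < ν) (h : IsSol ν T u p) {n : ℕ} {X F0 δ : ℝ} (hF00 : 0 ≤ F0)
    (hX : ∀ t ∈ Ico 0 T, ∀ R, Fe (bb R) (n - 2) (cf (u t)) ≤ X)
    (hF0 : ∀ R, Fe (bb R) n (cf (u 0)) ≤ F0)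
    (hin : ∀ t ∈ Ico 0 T, Psi (ν * 4 ^ (n + 1)) (fun s => strain (n + 1) (u s)) t ≤ δ) :
    ∀ t ∈ Ico 0 T, ∀ R, Fe (bb R) n (cf (u t)) ≤ F0 + 54 * δ * X := by
  intro t ht R
  have hX0 : 0 ≤ X := (Fe_nonneg _ _ _).trans (hX t ht 0)
  set a : ℝ := ν * 4 ^ (n + 1) with ha
  have ha0 : 0 < a := by positivity
  set g : ℝ → ℝ := fun s => strain (n + 1) (u s) with hg
  have hgc : ContinuousOn g (Ico 0 T) := continuousOn_strain h (n + 1)
  obtain ⟨b, hb1, hb2⟩ := exists_between ht.2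
  have hpi := Real.pi_pos
  refine le_of_forall_pos_le_add fun ε hε => ?_
  set η : ℝ := ε * a / 2 with hη
  have hη0 : 0 < η := by positivity
  obtain ⟨R0, hR0⟩ := err_small h hb2 (w := fun k => SH.W (2 ^ n) (nn k)) (C := 1) (q := 0)
    (fun k => by rw [abs_of_nonneg (SH.W_nonneg _ _), pow_zero, mul_one]; exact SH.W_le_one _ _) hη0
  set R' := max R R0 with hR'
  refine (Fe_mono (le_max_left R R0) n _).trans ?_
  have hsub : Ico 0 b ⊆ Ico 0 T := fun s hs => ⟨hs.1, hs.2.trans hb2⟩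
  have hsub' : Ioo 0 b ⊆ Ioo 0 T := fun s hs => ⟨hs.1, hs.2.trans hb2⟩
  have key := nocross' (f := fun s => Fe (bb R') n (cf (u s)) - 54 * X * Psi a g s) (T := b)
    (R := F0 + ε)
    (D := fun s => (-(2 * ∑ k ∈ bb R', SH.W (2 ^ n) (nn k) *
      ((4 * Real.pi ^ 2 * ν * Pool.Agent.H356R3.NS.sq k) * en (cf (u s) k)))
      + ∑ k ∈ bb R', SH.W (2 ^ n) (nn k) * fl (cf (u s)) k) - 54 * X * (g s - a * Psi a g s))
    (((continuousOn_sum h (bb R') _).mono hsub).sub
      (continuousOn_const.mul ((Psi_continuousOn hgc).mono hsub)))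
    (fun s hs => (der_sum h (bb R') _ (hsub' hs)).sub
      ((Psi_hasDerivAt hgc (hsub' hs)).const_mul _))
    (by
      show Fe (bb R') n (cf (u 0)) - 54 * X * Psi a g 0 < F0 + ε
      rw [Psi_zero, mul_zero, sub_zero]
      have := hF0 R'
      linarith)
    (fun s hs he => by
      have hsT := hsub' hs
      have hsI : s ∈ Ico 0 T := ⟨hsT.1.le, hsT.2⟩
      have h1 := hR0 R' (le_max_right _ _) s ⟨hs.1.le, hs.2.le⟩ hsT.2
      have h2 := flux_W' (B := bb R') bb_neg (cf_sym (u s)) (cf_div h hsI) n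
      have h3 := low_le_strain (bb R') (n + 1) (u s)
      have h4 := hX s hsI R'
      -- the flux
      have h5 : ∑ k ∈ bb R', SH.W (2 ^ n) (nn k) * fl (cf (u s)) k ≤ 54 * g s * X + η := by
        have h6 : 54 * Real.pi * (2 * ∑ k ∈ (bb R').filter (fun k => nn k < 2 ^ (n + 1)),
            nn k * ‖cf (u s) k‖) * Fe (bb R') (n - 2) (cf (u s)) ≤ 54 * g s * X := by
          apply mul_le_mul _ h4 (Fe_nonneg _ _ _)
            (by have := strain_nonneg (n + 1) (u s); positivity)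
          calc 54 * Real.pi * (2 * ∑ k ∈ (bb R').filter (fun k => nn k < 2 ^ (n + 1)),
                nn k * ‖cf (u s) k‖)
              ≤ 54 * Real.pi * (2 * (strain (n + 1) (u s) / (2 * Real.pi))) := by gcongr
            _ = 54 * g s := by rw [hg]; field_simp
        have h7 := (abs_le.1 h1).2
        have h8 := (abs_le.1 h2).2
        linarith
      -- the dissipation
      have h9 : a * Fe (bb R') n (cf (u s)) ≤ 2 * ∑ k ∈ bb R', SH.W (2 ^ n) (nn k) *
          ((4 * Real.pi ^ 2 * ν * Pool.Agent.H356R3.NS.sq k) * en (cf (u s) k)) := by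
        unfold Fe
        rw [Finset.mul_sum, Finset.mul_sum]
        refine Finset.sum_le_sum fun k _ => ?_
        rcases le_or_gt (2 * nn k) (2 ^ n) with h10 | h10
        · rw [SH.W_eq_zero (by positivity) h10]; simp
        · have h11 : (2 : ℝ) ^ n / 2 ≤ nn k := by linarith
          have h12 := sq_lower (by positivity) h11
          have h13 : (4 : ℝ) ^ n = (2 ^ n) ^ 2 := by rw [← pow_mul, mul_comm, pow_mul]; norm_num
          have h14 : a ≤ 2 * (4 * Real.pi ^ 2 * ν * Pool.Agent.H356R3.NS.sq k) := by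
            have e1 : ((2 : ℝ) ^ n / 2) ^ 2 = 4 ^ n / 4 := by rw [h13]; ring
            rw [e1] at h12
            have h15 : 9 ≤ Real.pi ^ 2 := by nlinarith [Real.pi_gt_three]
            have h16 : 8 * Real.pi ^ 2 * ν * (4 ^ n / 4) ≤ 8 * Real.pi ^ 2 * ν *
                Pool.Agent.H356R3.NS.sq k := mul_le_mul_of_nonneg_left h12 (by positivity)
            have h17 : 0 < ν * 4 ^ n := by positivity
            rw [ha, pow_succ]
            nlinarith [mul_le_mul_of_nonneg_right h15 h17.le]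
          have h18 : 0 ≤ SH.W (2 ^ n) (nn k) * en (cf (u s) k) :=
            mul_nonneg (SH.W_nonneg _ _) (en_nonneg _)
          calc a * (SH.W (2 ^ n) (nn k) * en (cf (u s) k))
              ≤ (2 * (4 * Real.pi ^ 2 * ν * Pool.Agent.H356R3.NS.sq k)) *
                (SH.W (2 ^ n) (nn k) * en (cf (u s) k)) := mul_le_mul_of_nonneg_right h14 h18
            _ = _ := by ring
      have he' : Fe (bb R') n (cf (u s)) = F0 + ε + 54 * X * Psi a g s := by
        have he2 : Fe (bb R') n (cf (u s)) - 54 * X * Psi a g s = F0 + ε := he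
        linarith
      rw [he'] at h9
      show (-(2 * ∑ k ∈ bb R', SH.W (2 ^ n) (nn k) *
        ((4 * Real.pi ^ 2 * ν * Pool.Agent.H356R3.NS.sq k) * en (cf (u s) k)))
        + ∑ k ∈ bb R', SH.W (2 ^ n) (nn k) * fl (cf (u s)) k) - 54 * X * (g s - a * Psi a g s) < 0
      have h19 : 0 ≤ a * F0 := by positivity
      have h20 : 0 < ε * a := by positivity
      nlinarith) t ⟨ht.1, hb1⟩
  have key2 : Fe (bb R') n (cf (u t)) - 54 * X * Psi a g t ≤ F0 + ε := key
  have h1 := hin t ht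
  have h2 : 54 * X * Psi a g t ≤ 54 * X * δ := mul_le_mul_of_nonneg_left h1 (by positivity)
  linarith

end

end Pool.Agent.K1H29.AC
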